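import Mathlib
import Pool.Agent.Helper87.TL.Defs

/-!
# TL-A1: the dimension of the space of semi-invariants

* `mu_zero`: `hw d m 0 = Vw d m 0` (`t27b_S_zero`), `finrank_Vw`, `pb_zero`.
* `mu_succ`: put `T = dl1 d`, `S = t27b_S d`, `λ_j = d m - 2 j`.  On `Vw d m j`: `S T - T S = λ_j` (`t27b_comm`,
  `t27b_E_apply`).  CLAIM: `S T` is injective on `Vw d m k` when `2 k < d m`.  If `g ∈ Vw d m k`, `S T g = 0`, then
  by induction on `j ≤ k`: `T S^(j+1) g = -c_(j+1) S^j g` with `c_(j+1) = λ_k + λ_(k-1) + ... + λ_(k-j) > 0`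
  (for `j = 0`: `T S g = S T g - λ_k g`; step: `T S (S^j g) = S (T S^j g) - λ_(k-j) S^j g`).  As `S^(k+1) g = 0`
  (`t27b_S_mem`, `t27b_S_zero`) one gets `S^k g = 0`, ..., `g = 0`.  (Same pattern as the proof of `dl1_inj` in TR/St/T27b.lean.)
  So `S : Vw d m (k+1) → Vw d m k` is surjective (`S T` is an injective endomorphism of the finite dimensional
  space `Vw d m k`), its kernel is `hw d m (k+1)`, and rank-nullity with `finrank_Vw` gives the formula.
-/

set_option autoImplicit false

open MvPolynomial Finset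

namespace Helper87.TL

open Helper87.TR

theorem mu_zero (d m : ℕ) : mu d m 0 = 1 := by
  have h : hw d m 0 = Vw d m 0 := by
    ext f
    rw [mem_hw]
    exact ⟨fun h => h.1, fun h => ⟨h, t27b_S_zero d m h⟩⟩
  rw [mu, h, finrank_Vw, pb_zero]

lemma a1_inj (d m k : ℕ) (h : 2 * k < d * m) {f : MvPolynomial (Fin (d + 1)) ℚ}
    (hf : f ∈ Vw d m k) (h0 : t27b_S d (dl1 d f) = 0) : f = 0 := by
  have key : ∀ j ≤ k, (t27b_S d)^[j] f ∈ Vw d m (k - j) ∧
      dl1 d ((t27b_S d)^[j + 1] f) =
        (-(((j : ℚ) + 1) * ((d : ℚ) * m - 2 * k + j))) • (t27b_S d)^[j] f := by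
    intro j
    induction j with
    | zero =>
      intro _
      refine ⟨by simpa using hf, ?_⟩
      have h1 := t27b_comm d f
      rw [h0, t27b_E_apply d m k hf, zero_sub, neg_eq_iff_eq_neg] at h1
      simp only [Function.iterate_succ, Function.iterate_zero, Function.comp, id]
      rw [h1, ← neg_smul]
      congr 1
      push_cast
      ring
    | succ j ih =>
      intro hj
      obtain ⟨h1, h2⟩ := ih (by omega)
      have h3 : (t27b_S d)^[j + 1] f ∈ Vw d m (k - (j + 1)) := by
        rw [Function.iterate_succ_apply']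
        refine t27b_S_mem d m _ ?_
        have : k - (j + 1) + 1 = k - j := by omega
        rw [this]
        exact h1
      refine ⟨h3, ?_⟩
      have h4 := t27b_comm d ((t27b_S d)^[j + 1] f)
      rw [h2, t27b_E_apply d m _ h3, Derivation.map_smul, ← Function.iterate_succ_apply' (t27b_S d) j,
        sub_eq_iff_eq_add, ← sub_eq_iff_eq_add', ← sub_smul,
        ← Function.iterate_succ_apply' (t27b_S d) (j + 1)] at h4
      rw [← h4]
      congr 1
      rw [Nat.cast_sub hj]
      push_cast
      ring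
  have hz : ∀ i ≤ k + 1, (t27b_S d)^[k + 1 - i] f = 0 := by
    intro i
    induction i with
    | zero =>
      intro _
      have h1 := (key k le_rfl).1
      rw [Nat.sub_self] at h1
      rw [Nat.sub_zero, Function.iterate_succ_apply']
      exact t27b_S_zero d m h1
    | succ i ih =>
      intro hi
      have h1 := ih (by omega)
      obtain ⟨-, h2⟩ := key (k - i) (by omega)
      have h3 : k - i + 1 = k + 1 - i := by omega
      have h4 : k + 1 - (i + 1) = k - i := by omega
      rw [h3, h1, map_zero] at h2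
      rw [h4]
      have h5 := (smul_eq_zero.1 h2.symm)
      rcases h5 with h5 | h5
      · exfalso
        have h6 : (0 : ℚ) < ((k - i : ℕ) : ℚ) + 1 := by positivity
        have h7 : (0 : ℚ) < (d : ℚ) * m - 2 * k + ((k - i : ℕ) : ℚ) := by
          have : (2 * k : ℚ) < d * m := by exact_mod_cast h
          have h8 : (0 : ℚ) ≤ ((k - i : ℕ) : ℚ) := by positivity
          linarith
        have := mul_pos h6 h7
        linarith
      · exact h5
  have := hz (k + 1) le_rfl
  simpa using this

/-- the lowering operator between the weight spaces -/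
noncomputable def a1_S (d m k : ℕ) : Vw d m (k + 1) →ₗ[ℚ] Vw d m k :=
  (((t27b_S d : Derivation ℚ _ _) : MvPolynomial (Fin (d + 1)) ℚ →ₗ[ℚ]
    MvPolynomial (Fin (d + 1)) ℚ).domRestrict (Vw d m (k + 1))).codRestrict (Vw d m k)
    fun f => t27b_S_mem d m k f.2

/-- the raising operator between the weight spaces -/
noncomputable def a1_T (d m k : ℕ) : Vw d m k →ₗ[ℚ] Vw d m (k + 1) :=
  (((dl1 d : Derivation ℚ _ _) : MvPolynomial (Fin (d + 1)) ℚ →ₗ[ℚ]
    MvPolynomial (Fin (d + 1)) ℚ).domRestrict (Vw d m k)).codRestrict (Vw d m (k + 1))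
    fun f => dl1_mem d m k f.2

lemma a1_S_coe (d m k : ℕ) (f : Vw d m (k + 1)) :
    (a1_S d m k f : MvPolynomial (Fin (d + 1)) ℚ) = t27b_S d f := rfl

lemma a1_T_coe (d m k : ℕ) (f : Vw d m k) :
    (a1_T d m k f : MvPolynomial (Fin (d + 1)) ℚ) = dl1 d f := rfl

lemma a1_surj (d m k : ℕ) (h : 2 * k < d * m) : Function.Surjective (a1_S d m k) := by
  have := Vw_finite d m k
  have hinj : Function.Injective (a1_S d m k ∘ₗ a1_T d m k) := by
    rw [← LinearMap.ker_eq_bot, LinearMap.ker_eq_bot']
    intro f hf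
    have h1 := congrArg Subtype.val hf
    rw [LinearMap.comp_apply, a1_S_coe, a1_T_coe] at h1
    exact Subtype.ext (a1_inj d m k h f.2 h1)
  have hsurj := LinearMap.injective_iff_surjective.1 hinj
  intro y
  obtain ⟨x, hx⟩ := hsurj y
  exact ⟨a1_T d m k x, hx⟩

lemma a1_ker (d m k : ℕ) :
    LinearMap.ker (a1_S d m k) = (hw d m (k + 1)).comap (Vw d m (k + 1)).subtype := by
  ext f
  rw [LinearMap.mem_ker, Submodule.mem_comap, Submodule.subtype_apply, mem_hw, Subtype.ext_iff,
    a1_S_coe]
  exact ⟨fun h => ⟨f.2, h⟩, fun h => h.2⟩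

theorem mu_succ (d m k : ℕ) (h : 2 * k < d * m) : mu d m (k + 1) + pb m d k = pb m d (k + 1) := by
  have := Vw_finite d m (k + 1)
  have h1 := LinearMap.finrank_range_add_finrank_ker (a1_S d m k)
  have h2 : hw d m (k + 1) ≤ Vw d m (k + 1) := fun f hf => hf.1
  rw [LinearMap.range_eq_top.2 (a1_surj d m k h), finrank_top, a1_ker,
    (Submodule.comapSubtypeEquivOfLe h2).finrank_eq, finrank_Vw, finrank_Vw] at h1
  rw [mu, Nat.add_comm]
  exact h1

end Helper87.TL
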