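import Mathlib
import Pool.Agent.Helper87.TL.St.A1

/-!
# TL-A2: consequences

* `mu_comm`: both sides by `mu_zero`, `mu_succ` and `pb_comm`.
* `mu_div`: `pb_ineq a μ s` with `mu_succ`, `mu_comm` (`mu a (s μ) k ≤ mu (a μ) s k = mu s (a μ) k`).
* `mult_eq_mu`: `mult_zero`, `mult_succ` (TR/Final.lean) with `mu_zero`, `mu_succ`, `pb_comm`.
-/

set_option autoImplicit false

open MvPolynomial Finset

namespace Helper87.TL

open Helper87.TR

theorem mu_comm (d m k : ℕ) (h : 2 * k ≤ d * m) : mu d m k = mu m d k := by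
  rcases Nat.eq_zero_or_pos k with h0 | h0
  · subst h0
    rw [mu_zero, mu_zero]
  · obtain ⟨j, rfl⟩ : ∃ j, k = j + 1 := ⟨k - 1, by omega⟩
    have hc : m * d = d * m := Nat.mul_comm m d
    have h1 := mu_succ d m j (by omega)
    have h2 := mu_succ m d j (by omega)
    have h3 := pb_comm m d j
    have h4 := pb_comm m d (j + 1)
    omega

theorem mu_div (a μ s k : ℕ) (ha : 1 ≤ a) (hμ : 1 ≤ μ) (hs : a ≤ s) (hk : 2 * k ≤ a * (s * μ)) :
    mu a (s * μ) k ≤ mu s (a * μ) k := by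
  rcases Nat.eq_zero_or_pos k with h0 | h0
  · subst h0
    rw [mu_zero, mu_zero]
  · obtain ⟨j, rfl⟩ : ∃ j, k = j + 1 := ⟨k - 1, by omega⟩
    have hc : s * (a * μ) = a * (s * μ) := by ring
    have h1 := mu_succ a (s * μ) j (by omega)
    have h2 := mu_succ s (a * μ) j (by omega)
    have h3 := pb_comm (a * μ) s j
    have h4 := pb_comm (a * μ) s (j + 1)
    have h5 := pb_ineq a μ s j ha hμ hs hk
    omega

theorem mult_eq_mu (m n k : ℕ) (hm : 1 ≤ m) (hn : 1 ≤ n) (hk : 2 * k ≤ m * n) :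
    mult (m * n) k m n = mu m n k := by
  rcases Nat.eq_zero_or_pos k with h0 | h0
  · subst h0
    rw [mult_zero m n hn, pb_zero, mu_zero]
  · obtain ⟨j, rfl⟩ : ∃ j, k = j + 1 := ⟨k - 1, by omega⟩
    have h1 := mult_succ m n j hn (by omega)
    have h2 := mu_succ m n j (by omega)
    have h3 := pb_comm m n j
    have h4 := pb_comm m n (j + 1)
    omega

end Helper87.TL
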