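import Mathlib
import Pool.Agent.Helper87.TL.Defs

/-!
# TL-B: products of semi-invariants

* `hw_mul`: `t29a_mul_mem` (TR/St/T29a.lean) and the Leibniz rule for the derivation `t27b_S d`.
* `mu_add`: take `g ≠ 0` in `hw d m' k'` (positive dimension); multiplication by `g` is an injective linear map
  `hw d m k → hw d (m + m') (k + k')` (`MvPolynomial (Fin (d + 1)) ℚ` is a domain).
* `mu_X0`: `X_0 ∈ hw d 1 0` (`t29a_X_mem`, `t27b_S d (X 0) = 0`), so `1 ≤ mu d 1 0`, induction on `c` with `mu_add`.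
* `mu_pow`: induction on `j` (`mu d 0 0 ≥ 1`: `1 ∈ hw d 0 0`).
-/

set_option autoImplicit false

open MvPolynomial Finset

namespace Helper87.TL

open Helper87.TR

theorem hw_mul {d m k m' k' : ℕ} {f g : MvPolynomial (Fin (d + 1)) ℚ} (hf : f ∈ hw d m k)
    (hg : g ∈ hw d m' k') : f * g ∈ hw d (m + m') (k + k') :=
  ⟨t29a_mul_mem hf.1 hg.1, by
    rw [Derivation.leibniz, hf.2, hg.2, smul_zero, smul_zero, add_zero]⟩

lemma b_exists {d m k : ℕ} (h : 1 ≤ mu d m k) : ∃ g ∈ hw d m k, g ≠ 0 := by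
  have h1 : 0 < Module.finrank ℚ (hw d m k) := h
  have h2 : Nontrivial (hw d m k) := Module.nontrivial_of_finrank_pos h1
  obtain ⟨g, hg⟩ := exists_ne (0 : hw d m k)
  exact ⟨g.1, g.2, fun h3 => hg (Subtype.ext h3)⟩

lemma b_pos {d m k : ℕ} {g : MvPolynomial (Fin (d + 1)) ℚ} (hg : g ∈ hw d m k) (h : g ≠ 0) :
    1 ≤ mu d m k := by
  have h2 : Nontrivial (hw d m k) :=
    ⟨⟨⟨g, hg⟩, 0, fun h3 => h (congrArg Subtype.val h3)⟩⟩
  exact Module.finrank_pos

theorem mu_add (d m k m' k' : ℕ) (h : 1 ≤ mu d m' k') : mu d m k ≤ mu d (m + m') (k + k') := by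
  obtain ⟨g, hg, hg0⟩ := b_exists h
  let L : hw d m k →ₗ[ℚ] hw d (m + m') (k + k') :=
    { toFun := fun f => ⟨f.1 * g, hw_mul f.2 hg⟩
      map_add' := fun x y => Subtype.ext (add_mul x.1 y.1 g)
      map_smul' := fun c x => Subtype.ext (smul_mul_assoc c x.1 g) }
  have hL : Function.Injective L := by
    intro x y hxy
    have h1 : x.1 * g = y.1 * g := congrArg Subtype.val hxy
    exact Subtype.ext (mul_right_cancel₀ hg0 h1)
  exact LinearMap.finrank_le_finrank_of_injective hL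

lemma b_X0 (d : ℕ) : 1 ≤ mu d 1 0 := by
  have h1 := t29a_X_mem d 0
  have h2 : t27b_S d (X 0) = 0 := by
    rw [t27b_S, MvPolynomial.mkDerivation_X]
    simp
  exact b_pos (g := X 0) ⟨by simpa using h1, h2⟩ (MvPolynomial.X_ne_zero 0)

theorem mu_X0 (d m k c : ℕ) : mu d m k ≤ mu d (m + c) k := by
  induction c with
  | zero => exact le_refl _
  | succ c ih =>
    refine ih.trans ?_
    have h := mu_add d (m + c) k 1 0 (b_X0 d)
    rwa [add_assoc, add_zero] at h

lemma b_one (d : ℕ) : 1 ≤ mu d 0 0 := by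
  have h1 := t29a_C_mem d 1
  have h2 : t27b_S d (MvPolynomial.C 1) = 0 := by
    rw [MvPolynomial.C_1, Derivation.map_one_eq_zero]
  exact b_pos (g := MvPolynomial.C 1) ⟨h1, h2⟩ (by rw [MvPolynomial.C_1]; exact one_ne_zero)

theorem mu_pow (d m k j : ℕ) (h : 1 ≤ mu d m k) : 1 ≤ mu d (j * m) (j * k) := by
  induction j with
  | zero => rw [zero_mul, zero_mul]; exact b_one d
  | succ j ih =>
    have h1 := mu_add d (j * m) (j * k) m k h
    rw [← Nat.succ_mul, ← Nat.succ_mul] at h1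
    exact ih.trans h1

end Helper87.TL
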