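import Mathlib
import Pool.Agent.Helper87.TL.St.A1

/-!
# TL-C1: four covariants of quintics and sextics

The values say: the binary quintic has an invariant of degree 4, a covariant of degree 5 and order 1 and an
invariant of degree 18; the binary sextic has an invariant of degree 2.
By `mu_succ` one needs `pb 4 5 9 < pb 4 5 10`, `pb 5 5 11 < pb 5 5 12`, `pb 18 5 44 < pb 18 5 45`, `pb 2 6 5 < pb 2 6 6`
(`pb m n k` = number of partitions of `k` with at most `m` parts, all at most `n`; `pb_comm` exchanges `m` and `n`).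
The differences are all `1`.
HINT: prove a recursion, e.g. `pb (m+1) (n+1) k = pb m (n+1) k + (if m + 1 ≤ k then pb (m+1) n (k - (m+1)) else 0)`
(a monotone `l : Fin (m+1) → ℕ` has `l 0 = 0`, or one can subtract 1 from all values), `pb 0 n k`, `pb m 0 k`
`= if k = 0 then 1 else 0`; then compute with a dynamic programming table (lists of coefficients) and `decide`/`decide +kernel`;
`C(23,5) = 33649`, so a naive recursion may also work.
-/

set_option autoImplicit false

open MvPolynomial Finset

namespace Helper87.TL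

open Helper87.TR

theorem c1_mem {m n : ℕ} {l : Fin m → ℕ} : l ∈ box m n ↔ Monotone l ∧ ∀ i, l i ≤ n := mem_box

theorem c1_zero (n k : ℕ) : pb 0 n k = if k = 0 then 1 else 0 := by
  have h : ∀ l : Fin 0 → ℕ, ∑ i, l i = 0 := fun l => by simp
  have hb : box 0 n = {fun i => i.elim0} := by
    ext l
    rw [c1_mem, mem_singleton]
    exact ⟨fun _ => funext fun i => i.elim0, fun _ => ⟨fun i => i.elim0, fun i => i.elim0⟩⟩
  unfold pb
  rw [hb]
  by_cases hk : k = 0
  · subst hk; simp
  · rw [if_neg hk, card_eq_zero, filter_eq_empty_iff]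
    intro l _ hl
    exact hk (hl.symm.trans (h l))

theorem c1_zero' (m k : ℕ) : pb m 0 k = if k = 0 then 1 else 0 := by
  have hb : box m 0 = {fun _ => 0} := by
    ext l
    rw [c1_mem, mem_singleton]
    constructor
    · rintro ⟨-, h⟩
      exact funext fun i => Nat.le_zero.1 (h i)
    · rintro rfl
      exact ⟨monotone_const, fun _ => le_rfl⟩
  unfold pb
  rw [hb]
  by_cases hk : k = 0
  · subst hk
    rw [if_pos rfl, filter_true_of_mem (fun l hl => by rw [mem_singleton] at hl; subst hl; simp),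
      card_singleton]
  · rw [if_neg hk, card_eq_zero, filter_eq_empty_iff]
    intro l hl h
    rw [mem_singleton] at hl
    subst hl
    simp at h
    exact hk h.symm

theorem c1_low (m n k : ℕ) :
    (((box (m + 1) (n + 1)).filter fun l => ∑ i, l i = k).filter fun l => l 0 = 0).card
      = pb m (n + 1) k := by
  unfold pb
  symm
  refine card_nbij' (fun l => (Fin.cons 0 l : Fin (m + 1) → ℕ)) (fun l i => l i.succ) ?_ ?_ ?_ ?_
  · intro l hl
    simp only [coe_filter, Set.mem_ofPred_eq, mem_filter, c1_mem] at hl ⊢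
    refine ⟨⟨⟨?_, ?_⟩, ?_⟩, by simp⟩
    · intro i j hij
      induction i using Fin.cases with
      | zero => simp
      | succ i =>
        induction j using Fin.cases with
        | zero => exact absurd hij (by simp)
        | succ j =>
          rw [Fin.cons_succ, Fin.cons_succ]
          exact hl.1.1 (Fin.succ_le_succ_iff.1 hij)
    · intro i
      induction i using Fin.cases with
      | zero => simp
      | succ i => rw [Fin.cons_succ]; exact hl.1.2 i
    · rw [Fin.sum_univ_succ]
      simpa using hl.2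
  · intro l hl
    simp only [coe_filter, Set.mem_ofPred_eq, mem_filter, c1_mem] at hl ⊢
    obtain ⟨⟨⟨h1, h2⟩, h3⟩, h4⟩ := hl
    refine ⟨⟨fun i j hij => h1 (Fin.succ_le_succ_iff.2 hij), fun i => h2 _⟩, ?_⟩
    rw [Fin.sum_univ_succ, h4, zero_add] at h3
    exact h3
  · intro l _
    funext i
    simp
  · intro l hl
    simp only [coe_filter, Set.mem_ofPred_eq, mem_filter, c1_mem] at hl
    funext i
    induction i using Fin.cases with
    | zero => simp [hl.2]
    | succ i => simp

theorem c1_high (m n k : ℕ) :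
    (((box (m + 1) (n + 1)).filter fun l => ∑ i, l i = k).filter fun l => ¬ l 0 = 0).card
      = if m + 1 ≤ k then pb (m + 1) n (k - (m + 1)) else 0 := by
  have hpos : ∀ l : Fin (m + 1) → ℕ, Monotone l → ¬ l 0 = 0 → ∀ i, 1 ≤ l i := by
    intro l hl h0 i
    have := hl (Fin.zero_le i)
    omega
  by_cases hk : m + 1 ≤ k
  · rw [if_pos hk]
    unfold pb
    symm
    refine card_nbij' (fun l i => l i + 1) (fun l i => l i - 1) ?_ ?_ ?_ ?_
    · intro l hl
      simp only [coe_filter, Set.mem_ofPred_eq, mem_filter, c1_mem] at hl ⊢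
      refine ⟨⟨⟨fun i j hij => Nat.succ_le_succ (hl.1.1 hij), fun i => Nat.succ_le_succ (hl.1.2 i)⟩,
        ?_⟩, by simp⟩
      rw [sum_add_distrib, hl.2]
      simp only [sum_const, card_univ, Fintype.card_fin, smul_eq_mul, mul_one]
      omega
    · intro l hl
      simp only [coe_filter, Set.mem_ofPred_eq, mem_filter, c1_mem] at hl ⊢
      obtain ⟨⟨⟨h1, h2⟩, h3⟩, h4⟩ := hl
      refine ⟨⟨fun i j hij => Nat.sub_le_sub_right (h1 hij) 1, fun i => ?_⟩, ?_⟩
      · have := h2 i
        omega
      · have h5 : ∑ i, l i = ∑ i, ((l i - 1) + 1) :=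
          sum_congr rfl fun i _ => (Nat.sub_add_cancel (hpos l h1 h4 i)).symm
        rw [h3, sum_add_distrib] at h5
        simp only [sum_const, card_univ, Fintype.card_fin, smul_eq_mul, mul_one] at h5
        omega
    · intro l _
      funext i
      simp
    · intro l hl
      simp only [coe_filter, Set.mem_ofPred_eq, mem_filter, c1_mem] at hl
      funext i
      exact Nat.sub_add_cancel (hpos l hl.1.1.1 hl.2 i)
  · rw [if_neg hk, card_eq_zero, filter_eq_empty_iff]
    intro l hl h0
    rw [mem_filter, c1_mem] at hl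
    have h1 : ∑ _i : Fin (m + 1), 1 ≤ ∑ i, l i := sum_le_sum fun i _ => hpos l hl.1.1 h0 i
    simp only [sum_const, card_univ, Fintype.card_fin, smul_eq_mul, mul_one] at h1
    omega

theorem c1_rec (m n k : ℕ) : pb (m + 1) (n + 1) k
    = pb m (n + 1) k + if m + 1 ≤ k then pb (m + 1) n (k - (m + 1)) else 0 := by
  have h := card_filter_add_card_filter_not (s := (box (m + 1) (n + 1)).filter fun l => ∑ i, l i = k)
    (fun l : Fin (m + 1) → ℕ => l 0 = 0)
  rw [c1_low, c1_high] at h
  exact h.symm

/-- the recursion as a function -/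
def c1_f : ℕ → ℕ → ℕ → ℕ
  | 0 => fun _ k => if k = 0 then 1 else 0
  | m + 1 => fun n => Nat.rec (motive := fun _ => ℕ → ℕ) (fun k => if k = 0 then 1 else 0)
      (fun n' ih k => c1_f m (n' + 1) k + if m + 1 ≤ k then ih (k - (m + 1)) else 0) n

theorem c1_eq (m : ℕ) : ∀ n k, pb m n k = c1_f m n k := by
  induction m with
  | zero => intro n k; rw [c1_zero]; rfl
  | succ m ihm =>
    intro n
    induction n with
    | zero => intro k; rw [c1_zero']; rfl
    | succ n ihn =>
      intro k
      rw [c1_rec, ihm, ihn]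
      rfl

theorem c1_val : c1_f 4 5 10 = c1_f 4 5 9 + 1 ∧ c1_f 5 5 12 = c1_f 5 5 11 + 1 ∧
    c1_f 5 18 45 = c1_f 5 18 44 + 1 ∧ c1_f 2 6 6 = c1_f 2 6 5 + 1 := by
  decide +kernel

theorem mu_base : 1 ≤ mu 5 4 10 ∧ 1 ≤ mu 5 5 12 ∧ 1 ≤ mu 5 18 45 ∧ 1 ≤ mu 6 2 6 := by
  obtain ⟨v1, v2, v3, v4⟩ := c1_val
  refine ⟨?_, ?_, ?_, ?_⟩
  · have h : mu 5 4 10 + pb 4 5 9 = pb 4 5 10 := mu_succ 5 4 9 (by norm_num)
    rw [c1_eq, c1_eq, v1] at h
    omega
  · have h : mu 5 5 12 + pb 5 5 11 = pb 5 5 12 := mu_succ 5 5 11 (by norm_num)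
    rw [c1_eq, c1_eq, v2] at h
    omega
  · have h : mu 5 18 45 + pb 18 5 44 = pb 18 5 45 := mu_succ 5 18 44 (by norm_num)
    rw [pb_comm 18 5, pb_comm 18 5, c1_eq, c1_eq, v3] at h
    omega
  · have h : mu 6 2 6 + pb 2 6 5 = pb 2 6 6 := mu_succ 6 2 5 (by norm_num)
    rw [c1_eq, c1_eq, v4] at h
    omega

end Helper87.TL
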