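import Mathlib
import Pool.Agent.Helper87.TL.St.A2
import Pool.Agent.Helper87.TL.St.B
import Pool.Agent.Helper87.TL.St.C1

/-!
# TL-C2: existence of covariants of small order in every large degree

Write `q = 5 u + 12 w` with `w ≤ 4`, `2 w ≡ q (mod 5)`, so `u ≥ 8`.
(a) `1 ≤ mu p (12 w) (6 p w)`: for `w = 0` it is `mu_zero`; for `w ≥ 1` `mu_div` with `a = 6, μ = 2 w, s = p` and
`1 ≤ mu 6 (2 p w) (6 p w)` from `mu_base` (`1 ≤ mu 6 2 6`) and `mu_pow`.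
(b) With `2 k' + δ = 5 p u`: `1 ≤ mu p (5 u) k'`: `mu_div` with `a = 5, μ = u, s = p` and `1 ≤ mu 5 n k'` for `n = p u`:
`n ≡ δ (mod 2)`, `n ≥ 5 δ + 18` (because `8 p ≥ 5 p + 13`), so `n = 5 δ + 4 a` or `n = 5 δ + 18 + 4 a`, and
`k' = 12 δ + 10 a` or `k' = 12 δ + 45 + 10 a`; use `mu_pow`, `mu_add`, `mu_base`.
(c) `mu_add` (product of the two), `k = k' + 6 p w`.
-/

set_option autoImplicit false

open MvPolynomial Finset

namespace Helper87.TL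

open Helper87.TR

theorem c2_sextic (p w : ℕ) (hp : 6 ≤ p) : 1 ≤ mu p (12 * w) (6 * (p * w)) := by
  rcases Nat.eq_zero_or_pos w with hw | hw
  · subst hw
    rw [mul_zero, mul_zero, mul_zero]
    rw [mu_zero]
  · have h1 : 1 ≤ mu 6 (p * w * 2) (p * w * 6) := mu_pow 6 2 6 (p * w) mu_base.2.2.2
    have h2 := mu_div 6 (2 * w) p (6 * (p * w)) (by norm_num) (by omega) hp (by
      have : 6 * (p * (2 * w)) = 2 * (6 * (p * w)) := by ring
      omega)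
    have e1 : p * w * 2 = p * (2 * w) := by ring
    have e2 : p * w * 6 = 6 * (p * w) := by ring
    have e3 : 6 * (2 * w) = 12 * w := by ring
    rw [e1, e2] at h1
    rw [e3] at h2
    exact h1.trans h2

theorem c2_quintic (n δ k : ℕ) (hn : 5 * δ + 18 ≤ n) (h : 2 * k + δ = 5 * n) :
    1 ≤ mu 5 n k := by
  obtain ⟨b1, b2, b3, _⟩ := mu_base
  have h1 : 1 ≤ mu 5 (δ * 5) (δ * 12) := mu_pow 5 5 12 δ b2
  rcases Nat.lt_or_ge 0 ((n - 5 * δ) % 4) with h4 | h4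
  · -- `n = 5 δ + 18 + 4 a`
    obtain ⟨a, ha⟩ : ∃ a, n = 5 * δ + 18 + 4 * a := ⟨(n - 5 * δ - 18) / 4, by omega⟩
    have h2 : 1 ≤ mu 5 (a * 4) (a * 10) := mu_pow 5 4 10 a b1
    have h3 := h1.trans (mu_add 5 (δ * 5) (δ * 12) 18 45 b3)
    have h5 := h3.trans (mu_add 5 (δ * 5 + 18) (δ * 12 + 45) (a * 4) (a * 10) h2)
    have e1 : δ * 5 + 18 + a * 4 = n := by omega
    have e2 : δ * 12 + 45 + a * 10 = k := by omega
    rw [e1, e2] at h5
    exact h5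
  · obtain ⟨a, ha⟩ : ∃ a, n = 5 * δ + 4 * a := ⟨(n - 5 * δ) / 4, by omega⟩
    have h2 : 1 ≤ mu 5 (a * 4) (a * 10) := mu_pow 5 4 10 a b1
    have h5 := h1.trans (mu_add 5 (δ * 5) (δ * 12) (a * 4) (a * 10) h2)
    have e1 : δ * 5 + a * 4 = n := by omega
    have e2 : δ * 12 + a * 10 = k := by omega
    rw [e1, e2] at h5
    exact h5

theorem mu_exists (p q δ k : ℕ) (hp : 6 ≤ p) (hq : 88 ≤ q) (hδ : δ < p) (h : 2 * k + δ = p * q) :
    1 ≤ mu p q k := by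
  obtain ⟨w, u, hw, hu⟩ : ∃ w u : ℕ, w ≤ 4 ∧ q = 5 * u + 12 * w :=
    ⟨(3 * q) % 5, (q - 12 * ((3 * q) % 5)) / 5, by omega, by omega⟩
  have hu8 : 8 ≤ u := by omega
  have hpu : 8 * p ≤ p * u := by nlinarith
  have hq' : p * q = 5 * (p * u) + 12 * (p * w) := by
    rw [hu]
    ring
  obtain ⟨k', hk'⟩ : ∃ k', k = k' + 6 * (p * w) := ⟨k - 6 * (p * w), by omega⟩
  have hk2 : 2 * k' + δ = 5 * (p * u) := by omega
  have h1 : 1 ≤ mu 5 (p * u) k' := c2_quintic (p * u) δ k' (by omega) hk2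
  have h2 := h1.trans (mu_div 5 u p k' (by norm_num) (by omega) (by omega) (by omega))
  have h3 := h2.trans (mu_add p (5 * u) k' (12 * w) (6 * (p * w)) (c2_sextic p w hp))
  rw [← hu, ← hk'] at h3
  exact h3

end Helper87.TL
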