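import Mathlib
import Pool.Agent.Helper87.TL.St.A2

/-!
# TL-D1: upper bound for the multiplicity

For `k = 0` it is `mu_zero`.  For `k = j + 1` by `mu_succ` (`2 j < d m`) and `pb_comm` it is enough that
`pb d m (j + 1) ≤ pb d m j + (j + 2) ^ (d - 2)`.  A monotone `l : Fin d → ℕ` with values `≤ m` and sum `j + 1`
either has `l (d - 2) < l (d - 1)`, and then subtracting `1` from the last value gives a monotone function with sum `j`
(injective), or `l (d - 2) = l (d - 1)`, and then it is determined by its first `d - 2` values, which are in `{0, ..., j + 1}`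
(so at most `(j + 2) ^ (d - 2)` of them).
-/

set_option autoImplicit false

open MvPolynomial Finset

namespace Helper87.TL

open Helper87.TR

/-- the last but one index -/
def d1_p (e : ℕ) : Fin (e + 2) := (Fin.last e).castSucc

lemma d1_sum (e : ℕ) (l : Fin (e + 2) → ℕ) :
    ∑ i, l i = ∑ i : Fin e, l i.castSucc.castSucc + l (d1_p e) + l (Fin.last (e + 1)) := by
  rw [Fin.sum_univ_castSucc, Fin.sum_univ_castSucc]
  rfl

lemma d1_le_p {e : ℕ} {i : Fin (e + 2)} (h : i ≠ Fin.last (e + 1)) : i ≤ d1_p e := by
  have h1 := i.isLt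
  have h2 : (i : ℕ) ≠ e + 1 := fun h3 => h (Fin.ext h3)
  rw [Fin.le_def]
  change (i : ℕ) ≤ e
  omega

lemma d1_p_ne (e : ℕ) : d1_p e ≠ Fin.last (e + 1) := by
  intro h
  have h1 := congrArg Fin.val h
  change e = e + 1 at h1
  omega

theorem d1_pb (e m j : ℕ) : pb (e + 2) m (j + 1) ≤ pb (e + 2) m j + (j + 2) ^ e := by
  classical
  rw [pb, pb]
  set U := (box (e + 2) m).filter fun l => ∑ i, l i = j + 1 with hU
  have hsp : U.card = (U.filter fun l => l (d1_p e) < l (Fin.last (e + 1))).card +
      (U.filter fun l => ¬ l (d1_p e) < l (Fin.last (e + 1))).card :=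
    (card_filter_add_card_filter_not _).symm
  rw [hsp]
  refine add_le_add ?_ ?_
  · refine card_le_card_of_injOn
      (fun l => Function.update l (Fin.last (e + 1)) (l (Fin.last (e + 1)) - 1)) ?_ ?_
    · intro l hl
      rw [mem_coe, mem_filter, hU, mem_filter, mem_box] at hl
      obtain ⟨⟨⟨hm, hb⟩, hs⟩, hlt⟩ := hl
      rw [mem_coe, mem_filter, mem_box]
      refine ⟨⟨?_, ?_⟩, ?_⟩
      · intro a b hab
        simp only [Function.update_apply]
        by_cases hb1 : b = Fin.last (e + 1)
        · rw [if_pos hb1]
          by_cases ha1 : a = Fin.last (e + 1)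
          · rw [if_pos ha1]
          · rw [if_neg ha1]
            have := hm (d1_le_p ha1)
            omega
        · rw [if_neg hb1]
          have ha1 : a ≠ Fin.last (e + 1) := by
            rintro rfl
            exact hb1 (le_antisymm (Fin.le_last b) hab)
          rw [if_neg ha1]
          exact hm hab
      · intro i
        simp only [Function.update_apply]
        split_ifs with h1
        · have := hb (Fin.last (e + 1))
          omega
        · exact hb i
      · rw [d1_sum] at hs ⊢
        have h1 : ∀ i : Fin e, (i.castSucc.castSucc : Fin (e + 2)) ≠ Fin.last (e + 1) := by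
          intro i
          exact Fin.castSucc_ne_last _
        simp only [Function.update_apply, if_neg (d1_p_ne e), if_true]
        have h2 : ∑ i : Fin e, (if (i.castSucc.castSucc : Fin (e + 2)) = Fin.last (e + 1) then
            l (Fin.last (e + 1)) - 1 else l i.castSucc.castSucc) =
            ∑ i : Fin e, l i.castSucc.castSucc := sum_congr rfl fun i _ => if_neg (h1 i)
        rw [h2]
        omega
    · intro l hl l' hl' h
      rw [mem_coe, mem_filter, hU, mem_filter, mem_box] at hl hl'
      funext i
      have h1 := congrFun h i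
      simp only [Function.update_apply] at h1
      by_cases hi : i = Fin.last (e + 1)
      · rw [if_pos hi, if_pos hi] at h1
        rw [hi]
        have h2 := hl.2
        have h3 := hl'.2
        omega
      · rwa [if_neg hi, if_neg hi] at h1
  · have hc : (j + 2) ^ e = (Fintype.piFinset fun _ : Fin e => range (j + 2)).card := by
      rw [Fintype.card_piFinset]
      simp
    rw [hc]
    refine card_le_card_of_injOn (fun l i => l i.castSucc.castSucc) ?_ ?_
    · intro l hl
      rw [mem_coe, mem_filter, hU, mem_filter, mem_box] at hl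
      rw [mem_coe, Fintype.mem_piFinset]
      intro i
      rw [mem_range]
      have h1 : l i.castSucc.castSucc ≤ ∑ i, l i :=
        single_le_sum (f := l) (fun _ _ => Nat.zero_le _) (mem_univ _)
      rw [hl.1.2] at h1
      exact Nat.lt_succ_of_le h1
    · intro l hl l' hl' h
      rw [mem_coe, mem_filter, hU, mem_filter, mem_box] at hl hl'
      obtain ⟨⟨⟨hm, -⟩, hs⟩, hlt⟩ := hl
      obtain ⟨⟨⟨hm', -⟩, hs'⟩, hlt'⟩ := hl'
      have h1 := hm (Fin.le_last (d1_p e))
      have h1' := hm' (Fin.le_last (d1_p e))
      rw [d1_sum] at hs hs'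
      have h2 : ∑ i : Fin e, l i.castSucc.castSucc = ∑ i : Fin e, l' i.castSucc.castSucc :=
        sum_congr rfl fun i _ => congrFun h i
      have h3 : l (Fin.last (e + 1)) = l' (Fin.last (e + 1)) := by omega
      have h4 : l (d1_p e) = l' (d1_p e) := by omega
      funext i
      refine Fin.lastCases h3 (fun i => ?_) i
      refine Fin.lastCases h4 (fun i => ?_) i
      exact congrFun h i

theorem mu_upper (d m k : ℕ) (hd : 2 ≤ d) (hk : 2 * k ≤ d * m) : mu d m k ≤ (k + 1) ^ (d - 2) := by
  rcases Nat.eq_zero_or_pos k with h0 | h0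
  · subst h0
    rw [mu_zero, zero_add, one_pow]
  · obtain ⟨j, rfl⟩ : ∃ j, k = j + 1 := ⟨k - 1, by omega⟩
    obtain ⟨e, rfl⟩ : ∃ e, d = e + 2 := ⟨d - 2, by omega⟩
    have h1 := mu_succ (e + 2) m j (by omega)
    have h2 := pb_comm m (e + 2) j
    have h3 := pb_comm m (e + 2) (j + 1)
    have h4 := d1_pb e m j
    have h5 : e + 2 - 2 = e := by omega
    have h6 : (j + 1 + 1) ^ (e + 2 - 2) = (j + 2) ^ e := by rw [h5]
    rw [h6]
    omega

end Helper87.TL
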