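import Mathlib
import Pool.Agent.Helper87.TL.St.A2
import Pool.Agent.Helper87.TL.St.B

/-!
# TL-D2: small weights

(a) `mu m n k = mu m q k` for `k ≤ q ≤ n` (`2 ≤ m`): `mu_zero`, `mu_succ` (`2 k ≤ m q`) and `pb m n j = pb m q j` for `j ≤ q`
(a value of a monotone function with sum `j ≤ q` is at most `q`); mind `mu_succ` has `pb n m`, use `pb_comm`.
(b) `mu m q k = mu q m k ≤ mu q p k = mu p q k` by `mu_comm` and `mu_X0` (`p = m + c`).
-/

set_option autoImplicit false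

open MvPolynomial Finset

namespace Helper87.TL

open Helper87.TR

theorem d2_pb (m n q j : ℕ) (hqn : q ≤ n) (hj : j ≤ q) : pb m n j = pb m q j := by
  unfold pb
  congr 1
  ext l
  simp only [mem_filter, mem_box]
  constructor
  · rintro ⟨⟨h1, _⟩, h3⟩
    refine ⟨⟨h1, fun i => ?_⟩, h3⟩
    have h4 : l i ≤ ∑ i, l i := single_le_sum (f := l) (fun _ _ => Nat.zero_le _) (mem_univ i)
    omega
  · rintro ⟨⟨h1, h2⟩, h3⟩
    exact ⟨⟨h1, fun i => (h2 i).trans hqn⟩, h3⟩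

theorem d2_mu (m n q k : ℕ) (h2 : 2 ≤ m) (hqn : q ≤ n) (hk : k ≤ q) : mu m n k = mu m q k := by
  rcases k with _ | j
  · rw [mu_zero, mu_zero]
  · have h3 : 2 * j < m * q := by nlinarith
    have h4 : 2 * j < m * n := lt_of_lt_of_le h3 (Nat.mul_le_mul_left m hqn)
    have h5 := mu_succ m n j h4
    have h6 := mu_succ m q j h3
    rw [pb_comm n m, pb_comm n m, d2_pb m n q _ hqn (by omega), d2_pb m n q _ hqn hk] at h5
    rw [pb_comm q m, pb_comm q m] at h6
    omega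

theorem mu_small (m n p q k : ℕ) (h2 : 2 ≤ m) (hmp : m ≤ p) (hqn : q ≤ n) (hk : k ≤ q) :
    mu m n k ≤ mu p q k := by
  obtain ⟨c, rfl⟩ := Nat.exists_eq_add_of_le hmp
  have h3 : 2 * k ≤ m * q := by nlinarith
  have h4 : 2 * k ≤ q * (m + c) := by nlinarith
  rw [d2_mu m n q k h2 hqn hk, mu_comm m q k h3, ← mu_comm q (m + c) k h4]
  exact mu_X0 q m k c

end Helper87.TL
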