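import Mathlib
import Pool.Agent.Helper87.TL.Defs

/-!
# TL-E1: the weights of the graph are nonnegative and regular

* `Cm_row`: for `i < a`: `-(a - 1)(p - a)(p - a - 1) + (p - a)(a - 1)(p - a - 1) = 0`; for `i ≥ a`:
  `a (a - 1)(p - a - 1) - (p - a - 1) a (a - 1) = 0` (split `range p` at `a`).
* `Cm_bound`: `|Cm p a i j| ≤ p ^ 2` for `2 ≤ a ≤ p - 2`.
* `hn_cast`: `hz p K s i j ≥ 0`: `∑ a ∈ Icc 2 (p - 2), s a |Cm p a i j| ≤ (p ^ 3 K + K) p ^ 2 + (p - 4) K p ^ 2 ≤ K p ^ 6`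
  for `p ≥ 6` (`p ^ 5 + p ^ 2 + (p - 4) p ^ 2 ≤ p ^ 6`).
* `hn_reg`: symmetry and zero diagonal are clear; row sums: `(p - 1) K p ^ 6 + 0`.
-/

set_option autoImplicit false

open MvPolynomial Finset

namespace Helper87.TL

theorem Cm_symm (p a i j : ℕ) : Cm p a i j = Cm p a j i := by
  unfold Cm
  by_cases h : i = j
  · rw [h]
  · rw [if_neg h, if_neg (Ne.symm h)]
    by_cases h1 : i < a <;> by_cases h2 : j < a <;> simp [h1, h2]

lemma e1_sum (p a : ℕ) (h : a ≤ p) (u v : ℤ) :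
    ∑ j ∈ range p, (if j < a then u else v) = a * u + ((p : ℤ) - a) * v := by
  rw [range_eq_Ico, ← sum_Ico_consecutive _ (Nat.zero_le a) h]
  have h1 : ∑ j ∈ Ico 0 a, (if j < a then u else v) = ∑ _j ∈ Ico 0 a, u :=
    sum_congr rfl fun j hj => if_pos (mem_Ico.mp hj).2
  have h2 : ∑ j ∈ Ico a p, (if j < a then u else v) = ∑ _j ∈ Ico a p, v :=
    sum_congr rfl fun j hj => if_neg (by have := (mem_Ico.mp hj).1; omega)
  rw [h1, h2, sum_const, sum_const, Nat.card_Ico, Nat.card_Ico, nsmul_eq_mul, nsmul_eq_mul,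
    Nat.sub_zero, Nat.cast_sub h]

theorem Cm_row (p a i : ℕ) (h1 : 2 ≤ a) (h2 : a + 2 ≤ p) (hi : i < p) :
    ∑ j ∈ range p, Cm p a i j = 0 := by
  by_cases h : i < a
  · have key : ∀ j ∈ range p, Cm p a i j =
        (if j < a then -(((p : ℤ) - a) * (p - a - 1)) else ((a : ℤ) - 1) * (p - a - 1)) -
          (if j = i then -(((p : ℤ) - a) * (p - a - 1)) else 0) := by
      intro j _
      unfold Cm
      by_cases hij : j = i
      · subst hij
        rw [if_pos rfl, if_pos h, if_pos rfl]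
        ring
      · rw [if_neg (Ne.symm hij), if_neg hij]
        by_cases hj : j < a
        · rw [if_pos ⟨h, hj⟩, if_pos hj]
          ring
        · rw [if_neg (fun hh => hj hh.2), if_pos (Or.inl h), if_neg hj]
          ring
    rw [sum_congr rfl key, sum_sub_distrib, e1_sum p a (by omega), sum_ite_eq' (range p) i,
      if_pos (mem_range.mpr hi)]
    ring
  · have key : ∀ j ∈ range p, Cm p a i j =
        (if j < a then ((a : ℤ) - 1) * (p - a - 1) else -((a : ℤ) * (a - 1))) -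
          (if j = i then -((a : ℤ) * (a - 1)) else 0) := by
      intro j _
      unfold Cm
      by_cases hij : j = i
      · subst hij
        rw [if_pos rfl, if_neg h, if_pos rfl]
        ring
      · rw [if_neg (Ne.symm hij), if_neg hij, if_neg (fun hh => h hh.1)]
        by_cases hj : j < a
        · rw [if_pos (Or.inr hj), if_pos hj]
          ring
        · rw [if_neg (fun hh => hh.elim h hj), if_neg hj]
          ring
    rw [sum_congr rfl key, sum_sub_distrib, e1_sum p a (by omega), sum_ite_eq' (range p) i,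
      if_pos (mem_range.mpr hi)]
    ring

lemma e1_mul_le (x y z : ℤ) (hx : 0 ≤ x) (hx' : x ≤ z) (hy : 0 ≤ y) (hy' : y ≤ z) :
    |x * y| ≤ z ^ 2 := by
  rw [abs_of_nonneg (mul_nonneg hx hy), sq]
  exact mul_le_mul hx' hy' hy (hx.trans hx')

theorem Cm_bound (p a i j : ℕ) (h1 : 2 ≤ a) (h2 : a + 2 ≤ p) : |Cm p a i j| ≤ (p : ℤ) ^ 2 := by
  have g1 : (2 : ℤ) ≤ a := by exact_mod_cast h1
  have g2 : (a : ℤ) + 2 ≤ p := by exact_mod_cast h2
  unfold Cm
  split_ifs
  · rw [abs_zero]; positivity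
  · rw [abs_neg]
    exact e1_mul_le _ _ _ (by linarith) (by linarith) (by linarith) (by linarith)
  · exact e1_mul_le _ _ _ (by linarith) (by linarith) (by linarith) (by linarith)
  · rw [abs_neg]
    exact e1_mul_le _ _ _ (by linarith) (by linarith) (by linarith) (by linarith)

lemma e1_abs (p K : ℕ) (s : ℕ → ℕ) (hp : 6 ≤ p) (hs : Adm p K s) (i j : ℕ) :
    |∑ a ∈ Icc 2 (p - 2), (s a : ℤ) * Cm p a i j| ≤ (K : ℤ) * p ^ 6 := by
  have hp' : (6 : ℤ) ≤ p := by exact_mod_cast hp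
  have hle : ∀ a ∈ Icc 2 (p - 2), |(s a : ℤ) * Cm p a i j| ≤
      ((if a = 2 then (p : ℤ) ^ 3 * K else 0) + K) * p ^ 2 := by
    intro a ha
    rw [mem_Icc] at ha
    rw [abs_mul, Nat.abs_cast]
    refine mul_le_mul ?_ (Cm_bound p a i j ha.1 (by omega)) (abs_nonneg _) ?_
    · by_cases h : a = 2
      · subst h
        rw [if_pos rfl]
        exact_mod_cast hs.two.2
      · rw [if_neg h, zero_add]
        exact_mod_cast (hs.other a (by omega) ha.2).2
    · split_ifs <;> positivity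
  refine (abs_sum_le_sum_abs _ _).trans ((sum_le_sum hle).trans ?_)
  rw [← sum_mul, sum_add_distrib, sum_ite_eq' (Icc 2 (p - 2)) 2,
    if_pos (mem_Icc.mpr ⟨le_refl 2, by omega⟩), sum_const, Nat.card_Icc, nsmul_eq_mul]
  have hc : ((p - 2 + 1 - 2 : ℕ) : ℤ) ≤ p := by
    have : p - 2 + 1 - 2 ≤ p := by omega
    exact_mod_cast this
  have hK : (0 : ℤ) ≤ K := by positivity
  have h3 : ((p - 2 + 1 - 2 : ℕ) : ℤ) * K ≤ p * K := mul_le_mul_of_nonneg_right hc hK
  have h4 : (p : ℤ) ^ 3 + p ≤ p ^ 4 := by nlinarith [sq_nonneg ((p : ℤ) ^ 2), sq_nonneg (p : ℤ)]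
  have h5 : ((p : ℤ) ^ 3 * K + ((p - 2 + 1 - 2 : ℕ) : ℤ) * K) ≤ p ^ 4 * K := by
    have := mul_le_mul_of_nonneg_right h4 hK
    linarith
  calc ((p : ℤ) ^ 3 * K + ((p - 2 + 1 - 2 : ℕ) : ℤ) * K) * p ^ 2 ≤ (p ^ 4 * K) * p ^ 2 :=
        mul_le_mul_of_nonneg_right h5 (by positivity)
    _ = K * p ^ 6 := by ring

theorem hn_cast (p K : ℕ) (s : ℕ → ℕ) (hp : 6 ≤ p) (hK : 1 ≤ K) (hs : Adm p K s) (i j : ℕ) :
    ((hn p K s i j : ℕ) : ℤ) = hz p K s i j := by
  unfold hn
  apply Int.toNat_of_nonneg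
  unfold hz
  split_ifs
  · exact le_refl 0
  · have := (abs_le.mp (e1_abs p K s hp hs i j)).1
    linarith

theorem hn_reg (p K : ℕ) (s : ℕ → ℕ) (hp : 6 ≤ p) (hK : 1 ≤ K) (hs : Adm p K s) :
    Reg (fun v w : Fin p => hn p K s v w) (K * p ^ 6 * (p - 1)) := by
  have hsymm : ∀ i j : ℕ, hn p K s i j = hn p K s j i := by
    intro i j
    unfold hn hz
    by_cases h : i = j
    · rw [h]
    · rw [if_neg h, if_neg (Ne.symm h)]
      congr 2
      exact sum_congr rfl fun a _ => by rw [Cm_symm]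
  refine ⟨fun v w => hsymm v w, fun v => ?_, fun v => ?_⟩
  · show hn p K s v v = 0
    unfold hn hz
    rw [if_pos rfl]
    rfl
  · have h1 : ((∑ w : Fin p, hn p K s v w : ℕ) : ℤ) = (K * p ^ 6 * (p - 1) : ℕ) := by
      push_cast
      rw [Nat.cast_sub (by omega : 1 ≤ p)]
      have h2 : ∀ w : Fin p, ((hn p K s v w : ℕ) : ℤ) =
          ((K : ℤ) * p ^ 6 - if w = v then (K : ℤ) * p ^ 6 else 0) +
            ∑ a ∈ Icc 2 (p - 2), (s a : ℤ) * Cm p a v w := by
        intro w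
        rw [hn_cast p K s hp hK hs]
        unfold hz
        by_cases h : v = w
        · subst h
          rw [if_pos rfl, if_pos rfl]
          have : ∀ a ∈ Icc 2 (p - 2), (s a : ℤ) * Cm p a v v = 0 := by
            intro a _
            unfold Cm
            rw [if_pos rfl, mul_zero]
          rw [sum_eq_zero this]
          ring
        · rw [if_neg (fun hh => h (Fin.ext hh)), if_neg (Ne.symm h), sub_zero]
      rw [sum_congr rfl fun w _ => h2 w, sum_add_distrib, sum_sub_distrib, sum_comm]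
      have h3 : ∑ a ∈ Icc 2 (p - 2), ∑ w : Fin p, (s a : ℤ) * Cm p a v w = 0 := by
        refine sum_eq_zero fun a ha => ?_
        rw [mem_Icc] at ha
        rw [← mul_sum, Fin.sum_univ_eq_sum_range (fun w => Cm p a v w) p,
          Cm_row p a v ha.1 (by omega) v.2, mul_zero]
      rw [h3, sum_ite_eq' univ v, if_pos (mem_univ v), sum_const, card_univ, Fintype.card_fin,
        nsmul_eq_mul]
      push_cast
      ring
    exact_mod_cast h1

end Helper87.TL
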