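import Mathlib
import Pool.Agent.Helper87.TL.St.E1

/-!
# TL-E2: the greedy inequalities for the weights

All in `ℤ` by `hn_cast` (for `i ≠ j`: `hz = K p ^ 6 + ∑ a ∈ Icc 2 (p - 2), s a * Cm p a i j`).
* `hn_one`: `hz i j - hz 0 1 = ∑ a, s a (Cm p a i j - Cm p a 0 1)`, `Cm p a 0 1 = -(p - a)(p - a - 1)` (`a ≥ 2`).  Term `a = 2`: `j ≥ 2`, so
  `Cm p 2 i j ≥ -2` and the difference is at least `(p - 2)(p - 3) - 2 ≥ 10`, times `s 2 ≥ p ^ 3 K + 1`.  Terms `a ≥ 3`:
  the difference is at least `-a (a - 1) ≥ -p ^ 2` (`Cm_bound`, `-Cm p a 0 1 ≥ 0`), times `s a ≤ K`; there are at most `p` of them.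
  So the sum is at least `10 p ^ 3 K - p ^ 3 K > 0`.
* `hn_J`: `i < J < l`.  `∑_{i < J} (Cm p a i l - Cm p a i J)` is `0` if `a ≤ J`; if `a > J` and `l < a` it is `0`; if `a > J` and `l ≥ a` it is
  `J ((a - 1)(p - a - 1) + (p - a)(p - a - 1)) = J (p - a - 1)(p - 1) ≥ 0`, and for `a = J + 1` (`≤ p - 2`, `l ≥ a`) it is positive, with `s a ≥ 1`
  (`a = J + 1 ≥ 3`).
-/

set_option autoImplicit false

open MvPolynomial Finset

namespace Helper87.TL

lemma e2_hz_sub (p K : ℕ) (s : ℕ → ℕ) (i j k l : ℕ) (h1 : i ≠ j) (h2 : k ≠ l) :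
    hz p K s i j - hz p K s k l =
      ∑ a ∈ Icc 2 (p - 2), (s a : ℤ) * (Cm p a i j - Cm p a k l) := by
  unfold hz
  rw [if_neg h1, if_neg h2, add_sub_add_left_eq_sub, ← sum_sub_distrib]
  exact sum_congr rfl fun a _ => (mul_sub _ _ _).symm

theorem hn_one (p K : ℕ) (s : ℕ → ℕ) (hp : 6 ≤ p) (hK : 1 ≤ K) (hs : Adm p K s) :
    ∀ i j : ℕ, i < j → j < p → 2 ≤ j → hn p K s 0 1 < hn p K s i j := by
  intro i j hij hjp hj
  have hp' : (6 : ℤ) ≤ p := by exact_mod_cast hp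
  have hK' : (1 : ℤ) ≤ K := by exact_mod_cast hK
  suffices h : (0 : ℤ) < hz p K s i j - hz p K s 0 1 by
    have : ((hn p K s 0 1 : ℕ) : ℤ) < ((hn p K s i j : ℕ) : ℤ) := by
      rw [hn_cast p K s hp hK hs, hn_cast p K s hp hK hs]
      linarith
    exact_mod_cast this
  rw [e2_hz_sub p K s i j 0 1 hij.ne (by norm_num)]
  have hle : ∀ a ∈ Icc 2 (p - 2),
      (if a = 2 then 10 * ((p : ℤ) ^ 3 * K + 1) + K * p ^ 2 else 0) - K * p ^ 2 ≤
        (s a : ℤ) * (Cm p a i j - Cm p a 0 1) := by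
    intro a ha
    rw [mem_Icc] at ha
    have g2 : (2 : ℤ) ≤ a := by exact_mod_cast ha.1
    have g3 : (a : ℤ) + 2 ≤ p := by
      have : a + 2 ≤ p := by omega
      exact_mod_cast this
    have h01 : Cm p a 0 1 = -(((p : ℤ) - a) * (p - a - 1)) := by
      unfold Cm
      rw [if_neg (by norm_num), if_pos ⟨by omega, by omega⟩]
    by_cases h : a = 2
    · subst h
      rw [if_pos rfl, h01]
      have hC : (-2 : ℤ) ≤ Cm p 2 i j := by
        unfold Cm
        rw [if_neg hij.ne, if_neg (fun hh => by omega)]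
        split_ifs
        · push_cast
          linarith
        · norm_num
      have h10 : (10 : ℤ) ≤ Cm p 2 i j - -(((p : ℤ) - (2 : ℕ)) * (p - (2 : ℕ) - 1)) := by
        push_cast
        nlinarith
      have hs2 : (p : ℤ) ^ 3 * K + 1 ≤ (s 2 : ℤ) := by exact_mod_cast hs.two.1
      have h0 : (0 : ℤ) ≤ (s 2 : ℤ) := by positivity
      calc 10 * ((p : ℤ) ^ 3 * K + 1) + K * p ^ 2 - K * p ^ 2 = ((p : ℤ) ^ 3 * K + 1) * 10 := by ring
        _ ≤ (s 2 : ℤ) * 10 := mul_le_mul_of_nonneg_right hs2 (by norm_num)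
        _ ≤ _ := mul_le_mul_of_nonneg_left h10 h0
    · rw [if_neg h, h01, zero_sub]
      have hC := (abs_le.mp (Cm_bound p a i j ha.1 (by omega))).1
      have hD : -((p : ℤ) ^ 2) ≤ Cm p a i j - -(((p : ℤ) - a) * (p - a - 1)) := by
        nlinarith
      have hsa : (s a : ℤ) ≤ K := by exact_mod_cast (hs.other a (by omega) ha.2).2
      have h0 : (0 : ℤ) ≤ (s a : ℤ) := by positivity
      calc -((K : ℤ) * p ^ 2) ≤ -((s a : ℤ) * p ^ 2) := by
            have := mul_le_mul_of_nonneg_right hsa (sq_nonneg (p : ℤ))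
            linarith
        _ = (s a : ℤ) * -((p : ℤ) ^ 2) := by ring
        _ ≤ _ := mul_le_mul_of_nonneg_left hD h0
  refine lt_of_lt_of_le ?_ (sum_le_sum hle)
  rw [sum_sub_distrib, sum_ite_eq' (Icc 2 (p - 2)) 2, if_pos (mem_Icc.mpr ⟨le_refl 2, by omega⟩),
    sum_const, Nat.card_Icc, nsmul_eq_mul]
  have hc : ((p - 2 + 1 - 2 : ℕ) : ℤ) ≤ p := by
    have : p - 2 + 1 - 2 ≤ p := by omega
    exact_mod_cast this
  have h3 : ((p - 2 + 1 - 2 : ℕ) : ℤ) * (K * p ^ 2) ≤ p * (K * p ^ 2) :=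
    mul_le_mul_of_nonneg_right hc (by positivity)
  have h4 : (0 : ℤ) ≤ (K : ℤ) * p ^ 2 := by positivity
  have h5 : (0 : ℤ) ≤ (K : ℤ) * p ^ 3 := by positivity
  nlinarith

theorem hn_J (p K : ℕ) (s : ℕ → ℕ) (hp : 6 ≤ p) (hK : 1 ≤ K) (hs : Adm p K s) :
    ∀ J l : ℕ, 2 ≤ J → J + 3 ≤ p → J < l → l < p →
      ∑ i ∈ range J, hn p K s i J < ∑ i ∈ range J, hn p K s i l := by
  intro J l hJ hJp hJl hlp
  have hp' : (6 : ℤ) ≤ p := by exact_mod_cast hp
  suffices h : (0 : ℤ) < ∑ i ∈ range J, (hz p K s i l - hz p K s i J) by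
    have : ((∑ i ∈ range J, hn p K s i J : ℕ) : ℤ) < ((∑ i ∈ range J, hn p K s i l : ℕ) : ℤ) := by
      push_cast
      rw [sum_congr rfl fun i _ => hn_cast p K s hp hK hs i J,
        sum_congr rfl fun i _ => hn_cast p K s hp hK hs i l]
      rw [sum_sub_distrib] at h
      linarith
    exact_mod_cast this
  have hval : ∀ a ∈ Icc 2 (p - 2), ∀ i ∈ range J, Cm p a i l - Cm p a i J =
      if J < a ∧ a ≤ l then ((p : ℤ) - a - 1) * (p - 1) else 0 := by
    intro a ha i hi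
    rw [mem_Icc] at ha
    rw [mem_range] at hi
    have hil : i ≠ l := by omega
    have hiJ : i ≠ J := by omega
    unfold Cm
    rw [if_neg hil, if_neg hiJ]
    split_ifs <;> first | (exfalso; omega) | ring
  have hre : ∑ i ∈ range J, (hz p K s i l - hz p K s i J) =
      ∑ a ∈ Icc 2 (p - 2), (s a : ℤ) *
        ((J : ℤ) * if J < a ∧ a ≤ l then ((p : ℤ) - a - 1) * (p - 1) else 0) := by
    have h1 : ∀ i ∈ range J, hz p K s i l - hz p K s i J =
        ∑ a ∈ Icc 2 (p - 2), (s a : ℤ) * (Cm p a i l - Cm p a i J) := by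
      intro i hi
      rw [mem_range] at hi
      exact e2_hz_sub p K s i l i J (by omega) (by omega)
    rw [sum_congr rfl h1, sum_comm]
    refine sum_congr rfl fun a ha => ?_
    rw [← mul_sum, sum_congr rfl (hval a ha), sum_const, card_range, nsmul_eq_mul]
  rw [hre]
  refine sum_pos' (fun a ha => ?_) ⟨J + 1, mem_Icc.mpr ⟨by omega, by omega⟩, ?_⟩
  · rw [mem_Icc] at ha
    have g3 : (a : ℤ) + 2 ≤ p := by
      have : a + 2 ≤ p := by omega
      exact_mod_cast this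
    refine mul_nonneg (by positivity) (mul_nonneg (by positivity) ?_)
    split_ifs
    · exact mul_nonneg (by linarith) (by linarith)
    · exact le_refl 0
  · have hs1 := (hs.other (J + 1) (by omega) (by omega)).1
    have hs2 : (0 : ℤ) < (s (J + 1) : ℤ) := by exact_mod_cast hs1
    have g3 : (J : ℤ) + 3 ≤ p := by exact_mod_cast hJp
    have g4 : (2 : ℤ) ≤ J := by exact_mod_cast hJ
    rw [if_pos ⟨by omega, by omega⟩]
    refine mul_pos hs2 (mul_pos (by linarith) (mul_pos ?_ (by linarith)))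
    push_cast
    linarith

end Helper87.TL
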