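import Mathlib
import Pool.Agent.Helper87.TL.St.E1

/-!
# TL-E3: the weights determine the parameters

For `j < p` (all `i < j` are `≠ j`) `∑_{i < j} hz i j = j K p ^ 6 + V_j`, `V_j = ∑ a ∈ Icc 2 (p - 2), s a v_a(j)`, with
`v_a(j) = ∑_{i < j} Cm p a i j = -j (p - a)(p - a - 1)` if `j < a` and `= a (a - 1)(p - 1 - j)` if `j ≥ a`
(for `j ≥ a`: `a (a - 1)(p - a - 1) - (j - a) a (a - 1)`).
So `V_j = -j A_j + (p - 1 - j) B_j` with `A_j = ∑_{a > j} s a (p - a)(p - a - 1)`, `B_j = ∑_{a ≤ j} s a a (a - 1)`.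
By strong induction on `j`: `V_1 = -A_1` gives `A_1`, `B_1 = 0`; for `2 ≤ j ≤ p - 2`: `A_j = A_(j-1) - s_j (p - j)(p - j - 1)`,
`B_j = B_(j-1) + s_j j (j - 1)`, so `V_j = -j A_(j-1) + (p - 1 - j) B_(j-1) + s_j j (p - j - 1)(p - 1)` and the coefficient of `s_j`
is positive.  Hence equal `V` give equal `s_j`.  (It may be easier to work with the differences `t_a = s a - s' a` in `ℤ`:
all `V_j(t) = 0` for `1 ≤ j ≤ p - 2` implies `t_a = 0` for `2 ≤ a ≤ p - 2`.)
-/

set_option autoImplicit false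

open MvPolynomial Finset

namespace Helper87.TL

theorem e3_v1 (p a j : ℕ) (hja : j < a) :
    ∑ i ∈ range j, Cm p a i j = -(j * (((p : ℤ) - a) * (p - a - 1))) := by
  have h : ∀ i ∈ range j, Cm p a i j = -(((p : ℤ) - a) * (p - a - 1)) := by
    intro i hi
    have hij := Finset.mem_range.mp hi
    unfold Cm
    rw [if_neg (by omega), if_pos ⟨by omega, hja⟩]
  rw [Finset.sum_congr rfl h, Finset.sum_const, Finset.card_range]
  simp only [nsmul_eq_mul]
  ring

theorem e3_v2 (p a j : ℕ) (hja : a ≤ j) :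
    ∑ i ∈ range j, Cm p a i j = (a : ℤ) * (a - 1) * (p - 1 - j) := by
  rw [← Finset.sum_range_add_sum_Ico _ hja]
  have h1 : ∀ i ∈ range a, Cm p a i j = ((a : ℤ) - 1) * (p - a - 1) := by
    intro i hi
    have hia := Finset.mem_range.mp hi
    unfold Cm
    rw [if_neg (by omega), if_neg (by omega), if_pos (Or.inl hia)]
  have h2 : ∀ i ∈ Ico a j, Cm p a i j = -((a : ℤ) * (a - 1)) := by
    intro i hi
    have hia := Finset.mem_Ico.mp hi
    unfold Cm
    rw [if_neg (by omega), if_neg (by omega), if_neg (by omega)]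
  rw [Finset.sum_congr rfl h1, Finset.sum_congr rfl h2, Finset.sum_const, Finset.sum_const,
    Finset.card_range, Nat.card_Ico]
  simp only [nsmul_eq_mul]
  rw [Nat.cast_sub hja]
  ring

theorem hn_inj (p K : ℕ) (s s' : ℕ → ℕ) (hp : 6 ≤ p) (hK : 1 ≤ K) (hs : Adm p K s)
    (hs' : Adm p K s')
    (h : ∀ j < p, ∑ i ∈ range j, hn p K s i j = ∑ i ∈ range j, hn p K s' i j) :
    ∀ a, 2 ≤ a → a + 2 ≤ p → s a = s' a := by
  let t : ℕ → ℤ := fun a => (s a : ℤ) - s' a
  -- the linear system
  have hV : ∀ j < p, ∑ a ∈ Icc 2 (p - 2), t a * ∑ i ∈ range j, Cm p a i j = 0 := by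
    intro j hj
    have h1 : ((∑ i ∈ range j, hn p K s i j : ℕ) : ℤ) = ((∑ i ∈ range j, hn p K s' i j : ℕ) : ℤ) := by
      rw [h j hj]
    push_cast at h1
    rw [Finset.sum_congr rfl (fun i _ => hn_cast p K s hp hK hs i j),
      Finset.sum_congr rfl (fun i _ => hn_cast p K s' hp hK hs' i j)] at h1
    have h2 : ∀ s : ℕ → ℕ, ∑ i ∈ range j, hz p K s i j =
        ∑ i ∈ range j, (K : ℤ) * p ^ 6 +
          ∑ a ∈ Icc 2 (p - 2), (s a : ℤ) * ∑ i ∈ range j, Cm p a i j := by
      intro s
      have h3 : ∀ i ∈ range j, hz p K s i j =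
          (K : ℤ) * p ^ 6 + ∑ a ∈ Icc 2 (p - 2), (s a : ℤ) * Cm p a i j := by
        intro i hi
        have hij := Finset.mem_range.mp hi
        unfold hz
        rw [if_neg (by omega)]
      rw [Finset.sum_congr rfl h3, Finset.sum_add_distrib, Finset.sum_comm]
      congr 1
      refine Finset.sum_congr rfl fun a _ => ?_
      rw [Finset.mul_sum]
    rw [h2 s, h2 s'] at h1
    have h4 := add_left_cancel h1
    have h5 : ∑ a ∈ Icc 2 (p - 2), t a * ∑ i ∈ range j, Cm p a i j =
        ∑ a ∈ Icc 2 (p - 2), (s a : ℤ) * ∑ i ∈ range j, Cm p a i j -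
          ∑ a ∈ Icc 2 (p - 2), (s' a : ℤ) * ∑ i ∈ range j, Cm p a i j := by
      rw [← Finset.sum_sub_distrib]
      refine Finset.sum_congr rfl fun a _ => ?_
      simp only [t]
      ring
    rw [h5, h4, sub_self]
  have key : ∀ j, 1 ≤ j → j + 2 ≤ p → (∀ a, 2 ≤ a → a ≤ j → t a = 0) ∧
      ∑ a ∈ Icc (j + 1) (p - 2), t a * (((p : ℤ) - a) * (p - a - 1)) = 0 := by
    intro j hj1
    induction j, hj1 using Nat.le_induction with
    | base =>
      intro _
      refine ⟨fun a h1 h2 => by omega, ?_⟩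
      have h1 := hV 1 (by omega)
      have h2 : ∀ a ∈ Icc 2 (p - 2), t a * ∑ i ∈ range 1, Cm p a i 1 =
          -(t a * (((p : ℤ) - a) * (p - a - 1))) := by
        intro a ha
        rw [Finset.mem_Icc] at ha
        rw [e3_v1 p a 1 (by omega)]
        push_cast
        ring
      rw [Finset.sum_congr rfl h2, Finset.sum_neg_distrib] at h1
      have h3 : Icc (1 + 1) (p - 2) = Icc 2 (p - 2) := rfl
      rw [h3]
      exact neg_eq_zero.mp h1
    | succ j hj1 ih =>
      intro hjp
      obtain ⟨ih1, ih2⟩ := ih (by omega)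
      have h1 := hV (j + 1) (by omega)
      -- split the sum at `j + 1`
      have h3 : Icc 2 (p - 2) = Icc 2 j ∪ Icc (j + 1) (p - 2) := by
        ext x
        simp only [Finset.mem_Icc, Finset.mem_union]
        omega
      have h3' : Disjoint (Icc 2 j) (Icc (j + 1) (p - 2)) := by
        rw [Finset.disjoint_left]
        intro x hx hx'
        rw [Finset.mem_Icc] at hx hx'
        omega
      have h4 : Icc (j + 1) (p - 2) = insert (j + 1) (Icc (j + 1 + 1) (p - 2)) := by
        ext x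
        simp only [Finset.mem_Icc, Finset.mem_insert]
        omega
      have h4' : j + 1 ∉ Icc (j + 1 + 1) (p - 2) := by
        simp
      rw [h3, Finset.sum_union h3'] at h1
      have h5 : ∑ a ∈ Icc 2 j, t a * ∑ i ∈ range (j + 1), Cm p a i (j + 1) = 0 := by
        refine Finset.sum_eq_zero fun a ha => ?_
        rw [Finset.mem_Icc] at ha
        rw [ih1 a ha.1 ha.2, zero_mul]
      rw [h5, zero_add, h4, Finset.sum_insert h4', e3_v2 p (j + 1) (j + 1) le_rfl] at h1
      rw [h4, Finset.sum_insert h4'] at ih2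
      have h6 : ∀ a ∈ Icc (j + 1 + 1) (p - 2), t a * ∑ i ∈ range (j + 1), Cm p a i (j + 1) =
          -((j : ℤ) + 1) * (t a * (((p : ℤ) - a) * (p - a - 1))) := by
        intro a ha
        rw [Finset.mem_Icc] at ha
        rw [e3_v1 p a (j + 1) (by omega)]
        push_cast
        ring
      rw [Finset.sum_congr rfl h6, ← Finset.mul_sum] at h1
      set S : ℤ := ∑ a ∈ Icc (j + 1 + 1) (p - 2), t a * (((p : ℤ) - a) * (p - a - 1)) with hS
      push_cast at h1 ih2
      have h7 : S = -(t (j + 1) * (((p : ℤ) - (j + 1)) * (p - (j + 1) - 1))) := by linarith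
      rw [h7] at h1
      have h8 : t (j + 1) * (((j : ℤ) + 1) * ((p : ℤ) - 1 - (j + 1)) * (p - 1)) = 0 := by
        linear_combination h1
      have hpos : ((j : ℤ) + 1) * ((p : ℤ) - 1 - (j + 1)) * (p - 1) ≠ 0 := by
        have e1 : (0 : ℤ) < (j : ℤ) + 1 := by positivity
        have e2 : (0 : ℤ) < (p : ℤ) - 1 - (j + 1) := by
          have : (j : ℤ) + 1 + 2 ≤ p := by exact_mod_cast hjp
          linarith
        have e3 : (0 : ℤ) < (p : ℤ) - 1 := by
          have : (6 : ℤ) ≤ p := by exact_mod_cast hp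
          linarith
        positivity
      have h9 : t (j + 1) = 0 := by
        rcases mul_eq_zero.mp h8 with h | h
        · exact h
        · exact absurd h hpos
      refine ⟨fun a h1 h2 => ?_, ?_⟩
      · rcases Nat.lt_or_ge a (j + 1) with h | h
        · exact ih1 a h1 (by omega)
        · have : a = j + 1 := by omega
          rw [this, h9]
      · rw [h7, h9]
        ring
  intro a h1 h2
  have h3 := (key a (by omega) h2).1 a h1 le_rfl
  simp only [t] at h3
  have h4 : (s a : ℤ) = s' a := by linarith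
  exact_mod_cast h4

end Helper87.TL
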