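import Mathlib
import Pool.Agent.Helper87.TL.Defs

/-!
# TL-F1: the symmetrized products of differences

* `gF_symm`: `rename ρ (gp h) = gp (fun v w => h (ρ⁻¹ v) (ρ⁻¹ w))` (reindex both products), then reindex the sum over `τ`.
* `gF_hom`: each `(X v - X w) ^ 2` is homogeneous of degree `2` (for `v = w` it is `0`, also fine), total `∑_v ∑_w 2 h = 2 p r`.
* `gF_deg`: `degreeOf i ((X v - X w) ^ 2) ≤ 2` if `i ∈ {v, w}` and `v ≠ w`, and `0` if `i ∉ {v, w}`; the exponent is `0` for `v = w`;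
  so the degree in `X_i` is at most `∑_w 2 h i w + ∑_v 2 h v i = 4 r`.
* `gF_der`: `D = ∑ i, pderiv i` is a derivation with `D (X v - X w) = 0`.
-/

set_option autoImplicit false

open MvPolynomial Finset

namespace Helper87.TL

lemma f1_rename_gp {p : ℕ} (h : Fin p → Fin p → ℕ) (e : Equiv.Perm (Fin p)) :
    rename e (gp h) = gp (fun v w => h (e⁻¹ v) (e⁻¹ w)) := by
  unfold gp
  rw [map_prod]
  refine Fintype.prod_equiv e _ _ fun v => ?_
  rw [map_prod]
  refine Fintype.prod_equiv e _ _ fun w => ?_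
  simp

theorem gF_symm {p : ℕ} (h : Fin p → Fin p → ℕ) : (gF h).IsSymmetric := by
  intro e
  unfold gF
  rw [map_sum]
  refine Fintype.sum_equiv (Equiv.mulRight e⁻¹) _ _ fun τ => ?_
  rw [f1_rename_gp]
  rfl

lemma f1_row {p : ℕ} {h : Fin p → Fin p → ℕ} {r : ℕ} (hr : Reg h r) (τ : Equiv.Perm (Fin p))
    (v : Fin p) : ∑ w, h (τ v) (τ w) = r := by
  rw [Equiv.sum_comp τ (fun w => h (τ v) w)]
  exact hr.row _

theorem gF_hom {p : ℕ} {h : Fin p → Fin p → ℕ} {r : ℕ} (hr : Reg h r) :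
    (gF h).IsHomogeneous (2 * (p * r)) := by
  unfold gF
  refine IsHomogeneous.sum _ _ _ fun τ _ => ?_
  unfold gp
  have key : ∀ v : Fin p, (∏ w, ((X v - X w : MvPolynomial (Fin p) ℚ) ^ 2) ^ h (τ v) (τ w)).IsHomogeneous
      (∑ w, (1 * 2) * h (τ v) (τ w)) := by
    intro v
    refine IsHomogeneous.prod _ _ _ fun w _ => ?_
    exact (((isHomogeneous_X _ _).sub (isHomogeneous_X _ _)).pow 2).pow _
  have h2 := IsHomogeneous.prod (Finset.univ : Finset (Fin p)) _ _ fun v _ => key v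
  have h3 : ∑ v : Fin p, ∑ w, (1 * 2) * h (τ v) (τ w) = 2 * (p * r) := by
    have : ∀ v : Fin p, ∑ w, (1 * 2) * h (τ v) (τ w) = 2 * r := by
      intro v
      rw [← Finset.mul_sum, f1_row hr τ v]
    rw [Finset.sum_congr rfl fun v _ => this v]
    simp
    ring
  rw [h3] at h2
  exact h2

lemma f1_deg_sub {p : ℕ} (i v w : Fin p) :
    degreeOf i (X v - X w : MvPolynomial (Fin p) ℚ) ≤
      (if i = v then 1 else 0) + (if i = w then 1 else 0) := by
  have h1 : degreeOf i (X v : MvPolynomial (Fin p) ℚ) = if i = v then 1 else 0 := degreeOf_X i v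
  have h2 : degreeOf i (-X w : MvPolynomial (Fin p) ℚ) = if i = w then 1 else 0 := by
    have h4 : degreeOf i (-X w : MvPolynomial (Fin p) ℚ) = degreeOf i (X w : MvPolynomial (Fin p) ℚ) := by
      classical
      simp only [degreeOf, degrees_neg]
    rw [h4]
    exact degreeOf_X i w
  have h3 := degreeOf_add_le i (X v : MvPolynomial (Fin p) ℚ) (-X w)
  rw [← sub_eq_add_neg, h1, h2] at h3
  refine h3.trans ?_
  split_ifs <;> simp

theorem gF_deg {p : ℕ} {h : Fin p → Fin p → ℕ} {r : ℕ} (hr : Reg h r) (i : Fin p) :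
    degreeOf i (gF h) ≤ 4 * r := by
  unfold gF
  refine (degreeOf_sum_le i _ _).trans ?_
  refine Finset.sup_le fun τ _ => ?_
  unfold gp
  refine (degreeOf_prod_le i _ _).trans ?_
  have key : ∀ v ∈ (Finset.univ : Finset (Fin p)),
      degreeOf i (∏ w, ((X v - X w : MvPolynomial (Fin p) ℚ) ^ 2) ^ h (τ v) (τ w)) ≤
        ∑ w, ((if i = v then 2 * h (τ v) (τ w) else 0) + (if i = w then 2 * h (τ v) (τ w) else 0)) := by
    intro v _
    refine (degreeOf_prod_le i _ _).trans ?_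
    refine Finset.sum_le_sum fun w _ => ?_
    refine (degreeOf_pow_le _ _ _).trans ?_
    refine (Nat.mul_le_mul_left _ (degreeOf_pow_le _ _ _)).trans ?_
    refine (Nat.mul_le_mul_left _ (Nat.mul_le_mul_left _ (f1_deg_sub i v w))).trans ?_
    split_ifs <;> simp <;> nlinarith
  refine (Finset.sum_le_sum key).trans ?_
  simp only [Finset.sum_add_distrib]
  have e1 : ∑ v : Fin p, ∑ w, (if i = v then 2 * h (τ v) (τ w) else 0) = 2 * r := by
    rw [Finset.sum_eq_single i]
    · simp only [if_true]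
      rw [← Finset.mul_sum, f1_row hr τ i]
    · intro v _ hv
      simp [Ne.symm hv]
    · simp
  have e2 : ∑ v : Fin p, ∑ w, (if i = w then 2 * h (τ v) (τ w) else 0) = 2 * r := by
    rw [Finset.sum_comm, Finset.sum_eq_single i]
    · simp only [if_true]
      have : ∀ v, h (τ v) (τ i) = h (τ i) (τ v) := fun v => hr.symm _ _
      simp only [this]
      rw [← Finset.mul_sum, f1_row hr τ i]
    · intro v _ hv
      simp [Ne.symm hv]
    · simp
  rw [e1, e2]
  omega

lemma f1_D_mul {p : ℕ} (f g : MvPolynomial (Fin p) ℚ) (hf : ∑ i, pderiv i f = 0)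
    (hg : ∑ i, pderiv i g = 0) : ∑ i, pderiv i (f * g) = 0 := by
  have : ∀ i : Fin p, pderiv i (f * g) = pderiv i f * g + f * pderiv i g := fun i => pderiv_mul
  simp only [this, Finset.sum_add_distrib, ← Finset.sum_mul, ← Finset.mul_sum, hf, hg]
  simp

lemma f1_D_one {p : ℕ} : ∑ i, pderiv i (1 : MvPolynomial (Fin p) ℚ) = 0 := by
  simp

lemma f1_D_pow {p : ℕ} (f : MvPolynomial (Fin p) ℚ) (hf : ∑ i, pderiv i f = 0) (k : ℕ) :
    ∑ i, pderiv i (f ^ k) = 0 := by
  induction k with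
  | zero => rw [pow_zero]; exact f1_D_one
  | succ k ih => rw [pow_succ]; exact f1_D_mul _ _ ih hf

lemma f1_D_prod {p : ℕ} {ι : Type*} (s : Finset ι) (f : ι → MvPolynomial (Fin p) ℚ)
    (hf : ∀ j ∈ s, ∑ i, pderiv i (f j) = 0) : ∑ i, pderiv i (∏ j ∈ s, f j) = 0 := by
  refine Finset.prod_induction f (fun g => ∑ i, pderiv i g = 0) (fun a b ha hb => f1_D_mul a b ha hb)
    f1_D_one hf

lemma f1_D_sub {p : ℕ} (v w : Fin p) :
    ∑ i, pderiv i (X v - X w : MvPolynomial (Fin p) ℚ) = 0 := by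
  classical
  simp [map_sub, pderiv_X, Pi.single_apply, Finset.sum_sub_distrib]

theorem gF_der {p : ℕ} (h : Fin p → Fin p → ℕ) : ∑ i, pderiv i (gF h) = 0 := by
  unfold gF
  have : ∀ i : Fin p, pderiv i (∑ τ : Equiv.Perm (Fin p), gp fun v w => h (τ v) (τ w)) =
      ∑ τ : Equiv.Perm (Fin p), pderiv i (gp fun v w => h (τ v) (τ w)) := fun i => map_sum _ _ _
  simp only [this]
  rw [Finset.sum_comm]
  refine Finset.sum_eq_zero fun τ _ => ?_
  unfold gp
  refine f1_D_prod _ _ fun v _ => ?_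
  refine f1_D_prod _ _ fun w _ => ?_
  exact f1_D_pow _ (f1_D_pow _ (f1_D_sub v w) 2) _

end Helper87.TL
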