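import Mathlib
import Pool.Agent.Helper87.TL.Defs

/-!
# TL-F2: degrees after the substitution `X_v = Y^(W^(p-1-v))`

* `ev_gp`: for `v ≠ w` the exponents `A = W^(p-1-v)`, `B = W^(p-1-w)` are different (`W ≥ 2`), so `(Y^A - Y^B)^2` is monic of degree
  `2 max(A, B)`; its power is monic; the factors with `v = w` are `1` (`h v v = 0`).  Product of monic polynomials:
  degree `∑_v ∑_w 2 h v w max(A, B) = 4 ∑_{v < w} h v w W^(p-1-v)`.
* `ev_gF`: every summand is monic of degree `4 Wd W (h ∘ τ) ≤ 4 Wd W h =: N`; the coefficient of `Y^N` of the sum is the number of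
  the `τ` with degree exactly `N`, it is positive (`τ = 1`).
-/

set_option autoImplicit false

open MvPolynomial Finset

namespace Helper87.TL

theorem f2_sq {A B : ℕ} (h : A ≠ B) :
    (((Polynomial.X : Polynomial ℚ) ^ A - Polynomial.X ^ B) ^ 2).Monic ∧
      (((Polynomial.X : Polynomial ℚ) ^ A - Polynomial.X ^ B) ^ 2).natDegree = 2 * max A B := by
  have key : ∀ C D : ℕ, D < C →
      (((Polynomial.X : Polynomial ℚ) ^ C - Polynomial.X ^ D) ^ 2).Monic ∧
      (((Polynomial.X : Polynomial ℚ) ^ C - Polynomial.X ^ D) ^ 2).natDegree = 2 * C := by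
    intro C D hCD
    have h1 : ((Polynomial.X : Polynomial ℚ) ^ C - Polynomial.X ^ D).Monic := by
      apply (Polynomial.monic_X_pow C).sub_of_left
      rw [Polynomial.degree_X_pow, Polynomial.degree_X_pow]
      exact_mod_cast hCD
    have h2 : ((Polynomial.X : Polynomial ℚ) ^ C - Polynomial.X ^ D).natDegree = C := by
      rw [Polynomial.natDegree_sub_eq_left_of_natDegree_lt]
      · exact Polynomial.natDegree_X_pow C
      · rw [Polynomial.natDegree_X_pow, Polynomial.natDegree_X_pow]; exact hCD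
    exact ⟨h1.pow 2, by rw [h1.natDegree_pow, h2]⟩
  rcases lt_or_gt_of_ne h with h | h
  · have h3 : ((Polynomial.X : Polynomial ℚ) ^ A - Polynomial.X ^ B) ^ 2 =
        (Polynomial.X ^ B - Polynomial.X ^ A) ^ 2 := by ring
    rw [h3, max_eq_right h.le]
    exact key B A h
  · rw [max_eq_left h.le]
    exact key A B h

theorem f2_sum {p : ℕ} {h : Fin p → Fin p → ℕ} (h1 : ∀ v w, h v w = h w v)
    (h2 : ∀ v, h v v = 0) (A : Fin p → ℕ) (hA : ∀ v w, v < w → A w ≤ A v) :
    ∑ v, ∑ w, h v w * (2 * max (A v) (A w)) =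
      4 * ∑ v : Fin p, ∑ w : Fin p, (if v < w then h v w * A v else 0) := by
  have e1 : ∀ v w : Fin p, h v w * (2 * max (A v) (A w)) =
      2 * (if v < w then h v w * A v else 0) + 2 * (if w < v then h w v * A w else 0) := by
    intro v w
    rcases lt_trichotomy v w with hvw | hvw | hvw
    · rw [if_pos hvw, if_neg hvw.not_gt, max_eq_left (hA v w hvw)]; ring
    · subst hvw; simp [h2]
    · rw [if_neg hvw.not_gt, if_pos hvw, max_eq_right (hA w v hvw), h1 v w]; ring
  simp_rw [e1, sum_add_distrib, ← mul_sum]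
  rw [sum_comm (f := fun v w : Fin p => if w < v then h w v * A w else 0)]
  ring

theorem ev_gp {p W : ℕ} (hW : 2 ≤ W) {h : Fin p → Fin p → ℕ} (h1 : ∀ v w, h v w = h w v)
    (h2 : ∀ v, h v v = 0) :
    (ev p W (gp h)).Monic ∧ (ev p W (gp h)).natDegree = 4 * Wd W h := by
  have hev : ev p W (gp h) = ∏ v : Fin p, ∏ w : Fin p,
      (((Polynomial.X : Polynomial ℚ) ^ (W ^ (p - 1 - (v : ℕ))) -
        Polynomial.X ^ (W ^ (p - 1 - (w : ℕ)))) ^ 2) ^ h v w := by
    simp [ev, gp, map_prod]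
  have hlt : ∀ v w : Fin p, v < w → W ^ (p - 1 - (w : ℕ)) < W ^ (p - 1 - (v : ℕ)) := by
    intro v w hvw
    apply Nat.pow_lt_pow_right (by omega)
    have := w.2
    have : (v : ℕ) < w := hvw
    omega
  have hf : ∀ v w : Fin p,
      ((((Polynomial.X : Polynomial ℚ) ^ (W ^ (p - 1 - (v : ℕ))) -
        Polynomial.X ^ (W ^ (p - 1 - (w : ℕ)))) ^ 2) ^ h v w).Monic ∧
      ((((Polynomial.X : Polynomial ℚ) ^ (W ^ (p - 1 - (v : ℕ))) -
        Polynomial.X ^ (W ^ (p - 1 - (w : ℕ)))) ^ 2) ^ h v w).natDegree =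
        h v w * (2 * max (W ^ (p - 1 - (v : ℕ))) (W ^ (p - 1 - (w : ℕ)))) := by
    intro v w
    by_cases hvw : v = w
    · subst hvw
      rw [h2, pow_zero, zero_mul]
      exact ⟨Polynomial.monic_one, Polynomial.natDegree_one⟩
    · have hne : W ^ (p - 1 - (v : ℕ)) ≠ W ^ (p - 1 - (w : ℕ)) := by
        rcases lt_or_gt_of_ne hvw with h3 | h3
        · exact (hlt v w h3).ne'
        · exact (hlt w v h3).ne
      obtain ⟨h3, h4⟩ := f2_sq hne
      exact ⟨h3.pow _, by rw [h3.natDegree_pow, h4]⟩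
  rw [hev]
  refine ⟨Polynomial.monic_prod_of_monic _ _ fun v _ =>
    Polynomial.monic_prod_of_monic _ _ fun w _ => (hf v w).1, ?_⟩
  rw [Polynomial.natDegree_prod_of_monic _ _ fun v _ =>
    Polynomial.monic_prod_of_monic _ _ fun w _ => (hf v w).1]
  rw [Wd, ← f2_sum h1 h2 (fun v => W ^ (p - 1 - (v : ℕ))) (fun v w hvw => (hlt v w hvw).le)]
  refine sum_congr rfl fun v _ => ?_
  rw [Polynomial.natDegree_prod_of_monic _ _ fun w _ => (hf v w).1]
  exact sum_congr rfl fun w _ => (hf v w).2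

theorem ev_gF {p W : ℕ} (hW : 2 ≤ W) {h : Fin p → Fin p → ℕ} {r : ℕ} (hr : Reg h r)
    (hmax : ∀ τ : Equiv.Perm (Fin p), Wd W (fun v w => h (τ v) (τ w)) ≤ Wd W h) :
    ev p W (gF h) ≠ 0 ∧ (ev p W (gF h)).natDegree = 4 * Wd W h := by
  have hev : ev p W (gF h) = ∑ τ : Equiv.Perm (Fin p),
      ev p W (gp fun v w => h (τ v) (τ w)) := by
    rw [gF, map_sum]
  have hτ : ∀ τ : Equiv.Perm (Fin p), (ev p W (gp fun v w => h (τ v) (τ w))).Monic ∧
      (ev p W (gp fun v w => h (τ v) (τ w))).natDegree = 4 * Wd W (fun v w => h (τ v) (τ w)) :=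
    fun τ => ev_gp hW (fun v w => hr.symm _ _) (fun v => hr.diag _)
  have hle : ∀ τ : Equiv.Perm (Fin p),
      (ev p W (gp fun v w => h (τ v) (τ w))).natDegree ≤ 4 * Wd W h := fun τ => by
    rw [(hτ τ).2]
    exact Nat.mul_le_mul_left 4 (hmax τ)
  have hnn : ∀ τ : Equiv.Perm (Fin p),
      0 ≤ (ev p W (gp fun v w => h (τ v) (τ w))).coeff (4 * Wd W h) := fun τ => by
    rcases (hle τ).lt_or_eq with h3 | h3
    · rw [Polynomial.coeff_eq_zero_of_natDegree_lt h3]
    · rw [← h3]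
      have := (hτ τ).1.leadingCoeff
      rw [Polynomial.leadingCoeff] at this
      rw [this]
      exact zero_le_one
  have h1 : (ev p W (gp fun v w => h ((1 : Equiv.Perm (Fin p)) v) ((1 : Equiv.Perm (Fin p)) w))).coeff
      (4 * Wd W h) = 1 := by
    have h4 := hτ 1
    have h5 : (fun v w => h ((1 : Equiv.Perm (Fin p)) v) ((1 : Equiv.Perm (Fin p)) w)) = h := rfl
    rw [h5] at h4 ⊢
    rw [← h4.2]
    exact h4.1.leadingCoeff
  have hc : (ev p W (gF h)).coeff (4 * Wd W h) ≠ 0 := by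
    rw [hev, Polynomial.finsetSum_coeff]
    apply ne_of_gt
    apply sum_pos' (fun τ _ => hnn τ)
    exact ⟨1, mem_univ _, by rw [h1]; exact zero_lt_one⟩
  have hd : (ev p W (gF h)).natDegree ≤ 4 * Wd W h := by
    rw [hev]
    exact Polynomial.natDegree_sum_le_of_forall_le _ _ fun τ _ => hle τ
  exact ⟨fun h6 => hc (by rw [h6, Polynomial.coeff_zero]),
    Polynomial.natDegree_eq_of_le_of_coeff_ne_zero hd hc⟩

end Helper87.TL
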