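import Mathlib

/-!
# TL-F3: polynomials of different degrees are linearly independent

A nontrivial relation `∑ c_i f_i = 0`: the index with the largest degree among `c_i ≠ 0` gives a contradiction
(look at the coefficient).
-/

set_option autoImplicit false

namespace Helper87.TL

theorem indep_natDegree {ι : Type*} (f : ι → Polynomial ℚ) (hf : ∀ i, f i ≠ 0)
    (hi : Function.Injective fun i => (f i).natDegree) : LinearIndependent ℚ f := by
  classical
  rw [linearIndependent_iff']
  intro s g hg
  by_contra hcon
  push_neg at hcon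
  obtain ⟨j, hjs, hj⟩ := hcon
  obtain ⟨i0, hi0, hmax⟩ := Finset.exists_max_image (s.filter fun i => g i ≠ 0)
    (fun i => (f i).natDegree) ⟨j, Finset.mem_filter.2 ⟨hjs, hj⟩⟩
  rw [Finset.mem_filter] at hi0
  have h1 := congrArg (fun q : Polynomial ℚ => q.coeff (f i0).natDegree) hg
  simp only [Polynomial.finset_sum_coeff, Polynomial.coeff_smul, smul_eq_mul,
    Polynomial.coeff_zero] at h1
  rw [Finset.sum_eq_single i0] at h1
  · rcases mul_eq_zero.1 h1 with h2 | h2
    · exact hi0.2 h2
    · exact hf i0 (Polynomial.leadingCoeff_eq_zero.1 h2)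
  · intro i his hne
    by_cases hgi : g i = 0
    · rw [hgi, zero_mul]
    · have hle := hmax i (Finset.mem_filter.2 ⟨his, hgi⟩)
      have hlt : (f i).natDegree < (f i0).natDegree :=
        lt_of_le_of_ne hle fun h => hne (hi h)
      rw [Polynomial.coeff_eq_zero_of_natDegree_lt hlt, mul_zero]
  · intro h
    exact absurd hi0.1 h

end Helper87.TL
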