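import Mathlib
import Pool.Agent.Helper87.TL.Defs

/-!
# TL-G1: lexicographic comparison

* `lex_lt`: the tail `∑_{v > J} y v W^(p-1-v)` is at most `(W - 1)(1 + W + ... + W^(p-2-J)) < W^(p-1-J)` (e.g. induction, or
  `Nat.geomSum_lt`/`Nat.pred_mul_geom_sum_le`).
* `Wd_reg`: exchange: `∑_w h (τ v) (τ w) = r` (row sum, reindexed by `τ`), `= ∑_{w < v} + 0 + ∑_{w > v}`.
* `Wd_inj`: by `Wd_reg` with `τ = 1` the two sums `∑_v (∑_{i < v} H i v) W^(p-1-v)` are equal; digits are at most `r < W`; look at the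
  first `v` where they differ and use `lex_lt`.
-/

set_option autoImplicit false

open MvPolynomial Finset

namespace Helper87.TL

theorem g1_step (p W : ℕ) (y : ℕ → ℕ) :
    ∑ v ∈ range (p + 1), y v * W ^ (p + 1 - 1 - v) =
      W * ∑ v ∈ range p, y v * W ^ (p - 1 - v) + y p := by
  rw [Finset.sum_range_succ, Finset.mul_sum]
  congr 1
  · refine Finset.sum_congr rfl fun v hv => ?_
    rw [Finset.mem_range] at hv
    have : p + 1 - 1 - v = (p - 1 - v) + 1 := by omega
    rw [this, pow_succ]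
    ring
  · simp

theorem lex_lt (p W J : ℕ) (x y : ℕ → ℕ) (hy : ∀ v < p, y v < W) (hJ : J < p)
    (he : ∀ v < J, x v = y v) (hlt : y J < x J) :
    ∑ v ∈ range p, y v * W ^ (p - 1 - v) < ∑ v ∈ range p, x v * W ^ (p - 1 - v) := by
  induction p with
  | zero => omega
  | succ p ih =>
    rw [g1_step, g1_step]
    rcases Nat.lt_or_ge J p with h | h
    · have h1 := ih (fun v hv => hy v (by omega)) h
      have h2 := hy p (by omega)
      have h3 : W * (∑ v ∈ range p, y v * W ^ (p - 1 - v) + 1) ≤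
          W * ∑ v ∈ range p, x v * W ^ (p - 1 - v) := Nat.mul_le_mul_left W h1
      rw [Nat.mul_add] at h3
      omega
    · have hJp : J = p := by omega
      subst hJp
      have h1 : ∑ v ∈ range J, x v * W ^ (J - 1 - v) = ∑ v ∈ range J, y v * W ^ (J - 1 - v) :=
        Finset.sum_congr rfl fun v hv => by rw [he v (Finset.mem_range.1 hv)]
      rw [h1]
      omega

theorem Wd_reg {p : ℕ} {h : Fin p → Fin p → ℕ} {r : ℕ} (hr : Reg h r) (W : ℕ)
    (τ : Equiv.Perm (Fin p)) :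
    Wd W (fun v w => h (τ v) (τ w)) +
      ∑ v : Fin p, (∑ w : Fin p, if w < v then h (τ w) (τ v) else 0) * W ^ (p - 1 - (v : ℕ)) =
    r * ∑ v : Fin p, W ^ (p - 1 - (v : ℕ)) := by
  unfold Wd
  rw [← Finset.sum_add_distrib, Finset.mul_sum]
  refine Finset.sum_congr rfl fun v _ => ?_
  have h1 : ∑ w : Fin p, h (τ v) (τ w) = r := by
    rw [Equiv.sum_comp τ (fun w => h (τ v) w)]
    exact hr.row (τ v)
  have h2 : (∑ w : Fin p, if v < w then h (τ v) (τ w) * W ^ (p - 1 - (v : ℕ)) else 0) =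
      (∑ w : Fin p, if v < w then h (τ v) (τ w) else 0) * W ^ (p - 1 - (v : ℕ)) := by
    rw [Finset.sum_mul]
    exact Finset.sum_congr rfl fun w _ => by split_ifs <;> simp
  rw [h2, ← Nat.add_mul, ← Finset.sum_add_distrib, ← h1]
  congr 1
  refine Finset.sum_congr rfl fun w _ => ?_
  rcases lt_trichotomy v w with hvw | hvw | hvw
  · rw [if_pos hvw, if_neg hvw.asymm, Nat.add_zero]
  · subst hvw
    simp [hr.diag]
  · rw [if_neg hvw.asymm, if_pos hvw, Nat.zero_add, hr.symm]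

theorem g1_fin (p W : ℕ) (H : ℕ → ℕ → ℕ) :
    ∑ v : Fin p, (∑ w : Fin p, if w < v then H w v else 0) * W ^ (p - 1 - (v : ℕ)) =
      ∑ v ∈ range p, (∑ i ∈ range v, H i v) * W ^ (p - 1 - v) := by
  rw [← Fin.sum_univ_eq_sum_range (fun v => (∑ i ∈ range v, H i v) * W ^ (p - 1 - v)) p]
  refine Finset.sum_congr rfl fun v _ => ?_
  congr 1
  have h1 : ∑ w : Fin p, (if w < v then H w v else 0) =
      ∑ w ∈ range p, if w < (v : ℕ) then H w v else 0 := by
    rw [← Fin.sum_univ_eq_sum_range (fun w => if w < (v : ℕ) then H w v else 0) p]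
    exact Finset.sum_congr rfl fun w _ => rfl
  rw [h1, ← Finset.sum_filter]
  refine Finset.sum_congr ?_ fun _ _ => rfl
  ext i
  have := v.2
  simp only [Finset.mem_filter, Finset.mem_range]
  omega

theorem g1_digit (p r : ℕ) (H : ℕ → ℕ → ℕ) (hr : Reg (fun v w : Fin p => H v w) r) (v : ℕ)
    (hv : v < p) : ∑ i ∈ range v, H i v ≤ r := by
  have h1 := hr.row ⟨v, hv⟩
  have h2 : ∑ w : Fin p, H v w = ∑ w ∈ range p, H v w :=
    Fin.sum_univ_eq_sum_range (fun w => H v w) p
  have h3 : ∑ i ∈ range v, H i v = ∑ i ∈ range v, H v i := by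
    refine Finset.sum_congr rfl fun i hi => ?_
    rw [Finset.mem_range] at hi
    exact hr.symm ⟨i, by omega⟩ ⟨v, hv⟩
  rw [h3, ← h1]
  simp only
  rw [h2]
  exact Finset.sum_le_sum_of_subset (Finset.range_subset_range.2 hv.le)

theorem Wd_inj (p r W : ℕ) (H H' : ℕ → ℕ → ℕ) (hr : Reg (fun v w : Fin p => H v w) r)
    (hr' : Reg (fun v w : Fin p => H' v w) r) (hW : r < W)
    (h : Wd W (fun v w : Fin p => H v w) = Wd W (fun v w : Fin p => H' v w)) :
    ∀ j < p, ∑ i ∈ range j, H i j = ∑ i ∈ range j, H' i j := by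
  have e1 := Wd_reg hr W 1
  have e2 := Wd_reg hr' W 1
  simp only [Equiv.Perm.coe_one, id_eq] at e1 e2
  rw [g1_fin] at e1 e2
  have e3 : ∑ v ∈ range p, (∑ i ∈ range v, H i v) * W ^ (p - 1 - v) =
      ∑ v ∈ range p, (∑ i ∈ range v, H' i v) * W ^ (p - 1 - v) := by omega
  by_contra hcon
  push Not at hcon
  classical
  have hex : ∃ j, j < p ∧ ∑ i ∈ range j, H i j ≠ ∑ i ∈ range j, H' i j := hcon
  obtain ⟨hJp, hne⟩ := Nat.find_spec hex
  have hmin : ∀ v < Nat.find hex, ∑ i ∈ range v, H i v = ∑ i ∈ range v, H' i v := by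
    intro v hv
    by_contra hc
    exact Nat.find_min hex hv ⟨by omega, hc⟩
  rcases Nat.lt_or_gt_of_ne hne with h1 | h1
  · have := lex_lt p W (Nat.find hex) (fun v => ∑ i ∈ range v, H' i v)
      (fun v => ∑ i ∈ range v, H i v)
      (fun v hv => (g1_digit p r H hr v hv).trans_lt hW) hJp (fun v hv => (hmin v hv).symm) h1
    omega
  · have := lex_lt p W (Nat.find hex) (fun v => ∑ i ∈ range v, H i v)
      (fun v => ∑ i ∈ range v, H' i v)
      (fun v hv => (g1_digit p r H' hr' v hv).trans_lt hW) hJp (fun v hv => hmin v hv) h1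
    omega

end Helper87.TL
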