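import Mathlib
import Pool.Agent.Helper87.TL.St.G1

/-!
# TL-G2: the identity is the best order (greedy argument)

By `Wd_reg` (for `τ` and for `1`) it is enough that `∑_v b_v(τ) W^(p-1-v) ≥ ∑_v b_v(1) W^(p-1-v)`, where
`b_v(τ) = ∑_{w < v} H (τ w) (τ v)`; all `b_v ≤ r < W`.  Let `P(j)` be: `τ` maps `{0, ..., j - 1}` to itself.
* If `P(2)` fails: `b_0(τ) = 0 = b_0(1)` and `b_1(τ) = H (τ 0) (τ 1) > H 0 1 = b_1(1)` by `h1` (one of `τ 0, τ 1` is `≥ 2`; use the
  symmetry of `H`); `lex_lt` with `J = 1`.
* If `P(2), ..., P(J)` hold and `P(J + 1)` fails with `2 ≤ J ≤ p - 3`: for `2 ≤ v < J` `P(v)` and `P(v + 1)` give `τ v = v`, so `b_v(τ) = b_v(1)`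
  (the set `{τ w : w < v}` is `{w : w < v}`), `b_1(τ) = H 0 1` (symmetry), and `b_J(τ) = ∑_{w < J} H w (τ J) > b_J(1)` by `hJ`
  because `τ J > J`; `lex_lt` with this `J`.
* If `P(2), ..., P(p - 2)` hold: `b_v(τ) = b_v(1)` for `v < p - 2` as before; `{τ (p-2), τ (p-1)} = {p-2, p-1}`, `b_(p-1)(τ) = r`
  (the whole row) and `b_(p-2)(τ) = r - H (p-2) (p-1)` in both cases.  Equality.
-/

set_option autoImplicit false

open MvPolynomial Finset

namespace Helper87.TL

/-- `T` maps `{0, ..., v - 1}` into itself -/
def g2_P (T : ℕ → ℕ) (v : ℕ) : Prop := ∀ i < v, T i < v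

theorem g2_image {T : ℕ → ℕ} {p v : ℕ} (hinj : Set.InjOn T {i | i < p}) (hv : v ≤ p)
    (hP : g2_P T v) : (range v).image T = range v := by
  apply Finset.eq_of_subset_of_card_le
  · intro x hx
    rw [Finset.mem_image] at hx
    obtain ⟨i, hi, rfl⟩ := hx
    rw [Finset.mem_range] at hi ⊢
    exact hP i hi
  · rw [Finset.card_image_of_injOn]
    intro a ha b hb hab
    simp only [Finset.coe_range, Set.mem_Iio] at ha hb
    exact hinj (show a < p by omega) (show b < p by omega) hab

theorem g2_sum {T : ℕ → ℕ} {p v : ℕ} (hinj : Set.InjOn T {i | i < p}) (hv : v ≤ p)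
    (hP : g2_P T v) (f : ℕ → ℕ) : ∑ i ∈ range v, f (T i) = ∑ i ∈ range v, f i := by
  conv_rhs => rw [← g2_image hinj hv hP]
  rw [Finset.sum_image]
  intro a ha b hb hab
  simp only [Finset.coe_range, Set.mem_Iio] at ha hb
  exact hinj (show a < p by omega) (show b < p by omega) hab

theorem g2_ge {T : ℕ → ℕ} {p v : ℕ} (hinj : Set.InjOn T {i | i < p}) (hP : g2_P T v) {w : ℕ}
    (hvw : v ≤ w) (hw : w < p) : v ≤ T w := by
  by_contra hlt
  push Not at hlt
  have h1 : T w ∈ (range v).image T := by
    rw [g2_image hinj (by omega) hP, Finset.mem_range]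
    exact hlt
  rw [Finset.mem_image] at h1
  obtain ⟨i, hi, hiw⟩ := h1
  rw [Finset.mem_range] at hi
  have := hinj (show i < p by omega) (show w < p from hw) hiw
  omega

theorem g2_main (p r W : ℕ) (H : ℕ → ℕ → ℕ) (T : ℕ → ℕ) (hp : 4 ≤ p)
    (hinj : Set.InjOn T {i | i < p}) (hT : ∀ i < p, T i < p)
    (hsymm : ∀ i < p, ∀ j < p, H i j = H j i) (hdiag : ∀ i < p, H i i = 0)
    (hrow : ∀ i < p, ∑ j ∈ range p, H i j = r)
    (hdig : ∀ v < p, ∑ i ∈ range v, H i v < W)
    (h1 : ∀ i j : ℕ, i < j → j < p → 2 ≤ j → H 0 1 < H i j)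
    (hJ : ∀ J l : ℕ, 2 ≤ J → J + 3 ≤ p → J < l → l < p →
      ∑ i ∈ range J, H i J < ∑ i ∈ range J, H i l) :
    ∑ v ∈ range p, (∑ i ∈ range v, H i v) * W ^ (p - 1 - v) ≤
      ∑ v ∈ range p, (∑ i ∈ range v, H (T i) (T v)) * W ^ (p - 1 - v) := by
  have h01 : T 0 ≠ T 1 := fun h => by
    have := hinj (show 0 < p by omega) (show 1 < p by omega) h
    omega
  have hT0 := hT 0 (by omega)
  have hT1 := hT 1 (by omega)
  by_cases hP2 : g2_P T 2
  · -- `P(2)` holds
    have a0 := hP2 0 (by omega)
    have a1 := hP2 1 (by omega)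
    have e1 : ∑ i ∈ range 1, H (T i) (T 1) = ∑ i ∈ range 1, H i 1 := by
      rw [Finset.sum_range_one, Finset.sum_range_one]
      rcases Nat.lt_or_ge (T 0) 1 with h | h
      · have e0 : T 0 = 0 := by omega
        have e1 : T 1 = 1 := by omega
        rw [e0, e1]
      · have e0 : T 0 = 1 := by omega
        have e1 : T 1 = 0 := by omega
        rw [e0, e1]
        exact hsymm 1 (by omega) 0 (by omega)
    have hlow : ∀ J, J ≤ p → (∀ j, 2 ≤ j → j ≤ J → g2_P T j) →
        ∀ v < J, ∑ i ∈ range v, H i v = ∑ i ∈ range v, H (T i) (T v) := by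
      intro J hJp hPJ v hv
      rcases Nat.lt_or_ge v 2 with h | h
      · interval_cases v
        · simp
        · exact e1.symm
      · have hTv : T v = v := by
          have q1 := hPJ (v + 1) (by omega) (by omega) v (by omega)
          have q2 := g2_ge hinj (hPJ v h (by omega)) (le_refl v) (by omega)
          omega
        rw [hTv]
        exact (g2_sum hinj (by omega) (hPJ v h (by omega)) (fun i => H i v)).symm
    by_cases hall : ∀ j, 2 ≤ j → j ≤ p - 2 → g2_P T j
    · apply le_of_eq
      refine Finset.sum_congr rfl fun v hv => ?_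
      rw [Finset.mem_range] at hv
      congr 1
      rcases Nat.lt_or_ge v (p - 2) with h | h
      · exact hlow (p - 2) (by omega) hall v h
      · have hPp := hall (p - 2) (by omega) (le_refl _)
        have hfull : ∀ w < p, ∑ i ∈ range p, H (T i) w = r := by
          intro w hw
          rw [g2_sum hinj (le_refl p) hT (fun i => H i w), ← hrow w hw]
          exact Finset.sum_congr rfl fun i hi => hsymm i (Finset.mem_range.1 hi) w hw
        have hfull' : ∀ w < p, ∑ i ∈ range p, H i w = r := by
          intro w hw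
          rw [← hrow w hw]
          exact Finset.sum_congr rfl fun i hi => hsymm i (Finset.mem_range.1 hi) w hw
        have b1 := g2_ge hinj hPp (w := p - 2) (le_refl _) (by omega)
        have b2 := g2_ge hinj hPp (w := p - 1) (by omega) (by omega)
        have b3 := hT (p - 2) (by omega)
        have b4 := hT (p - 1) (by omega)
        have b5 : T (p - 2) ≠ T (p - 1) := fun h => by
          have := hinj (show p - 2 < p by omega) (show p - 1 < p by omega) h
          omega
        obtain ⟨q, rfl⟩ : ∃ q, p = q + 2 := ⟨p - 2, by omega⟩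
        have c1 : q + 2 - 2 = q := by omega
        have c2 : q + 2 - 1 = q + 1 := by omega
        rw [c1] at b1 b2 b3 b5 h hPp
        rw [c2] at b2 b4 b5
        have key := fun w (hw : w < q + 2) => hfull w hw
        have key' := fun w (hw : w < q + 2) => hfull' w hw
        simp only [Finset.sum_range_succ] at key key'
        rcases Nat.lt_or_ge v (q + 1) with h' | h'
        · have hvq : v = q := by omega
          subst hvq
          have k1 := key (T v) b3
          have k2 := key' v (by omega)
          rw [hdiag (T v) b3] at k1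
          rw [hdiag v (by omega)] at k2
          have k3 : H (T (v + 1)) (T v) = H (v + 1) v := by
            rcases Nat.lt_or_ge (T v) (v + 1) with h'' | h''
            · have e0 : T v = v := by omega
              have e1 : T (v + 1) = v + 1 := by omega
              rw [e0, e1]
            · have e0 : T v = v + 1 := by omega
              have e1 : T (v + 1) = v := by omega
              rw [e0, e1]
              exact hsymm _ (by omega) _ (by omega)
          omega
        · have hvq : v = q + 1 := by omega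
          subst hvq
          have k1 := key (T (q + 1)) b4
          have k2 := key' (q + 1) (by omega)
          rw [hdiag _ b4] at k1
          rw [hdiag (q + 1) (by omega)] at k2
          rw [Finset.sum_range_succ, Finset.sum_range_succ]
          omega
    · -- least failure
      classical
      push Not at hall
      have hex : ∃ j, 2 ≤ j ∧ j ≤ p - 2 ∧ ¬ g2_P T j := hall
      obtain ⟨d1, d2, d3⟩ := Nat.find_spec hex
      have hmin : ∀ j, j < Nat.find hex → 2 ≤ j → g2_P T j := by
        intro j hj h2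
        by_contra hc
        exact Nat.find_min hex hj ⟨h2, by omega, hc⟩
      set N := Nat.find hex with hN
      have hN2 : N ≠ 2 := fun h => d3 (h ▸ hP2)
      obtain ⟨J, hJN⟩ : ∃ J, N = J + 1 := ⟨N - 1, by omega⟩
      rw [hJN] at d3 hmin
      have hPJ := hmin J (by omega) (by omega)
      have hTJ : J < T J := by
        have q2 := g2_ge hinj hPJ (le_refl J) (by omega)
        rcases Nat.lt_or_ge J (T J) with h | h
        · exact h
        · exfalso
          apply d3
          intro i hi
          rcases Nat.lt_or_ge i J with h' | h'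
          · have := hPJ i h'
            omega
          · have : i = J := by omega
            subst this
            omega
      refine le_of_lt (lex_lt p W J (fun v => ∑ i ∈ range v, H (T i) (T v))
        (fun v => ∑ i ∈ range v, H i v) hdig (by omega) ?_ ?_)
      · intro v hv
        exact (hlow J (by omega) (fun j h2 hj => hmin j (by omega) h2) v hv).symm
      · rw [g2_sum hinj (by omega) hPJ (fun i => H i (T J))]
        exact hJ J (T J) (by omega) (by omega) hTJ (hT J (by omega))
  · -- `P(2)` fails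
    refine le_of_lt (lex_lt p W 1 (fun v => ∑ i ∈ range v, H (T i) (T v))
      (fun v => ∑ i ∈ range v, H i v) hdig (by omega) ?_ ?_)
    · intro v hv
      have : v = 0 := by omega
      subst this
      simp
    · simp only [Finset.sum_range_one]
      have hbig : 2 ≤ T 0 ∨ 2 ≤ T 1 := by
        by_contra hc
        push Not at hc
        apply hP2
        intro i hi
        interval_cases i
        · exact hc.1
        · exact hc.2
      rcases Nat.lt_or_ge (T 0) (T 1) with h | h
      · exact h1 (T 0) (T 1) h hT1 (by omega)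
      · rw [hsymm (T 0) hT0 (T 1) hT1]
        exact h1 (T 1) (T 0) (by omega) hT0 (by omega)

theorem greedy (p r W : ℕ) (H : ℕ → ℕ → ℕ) (hp : 4 ≤ p)
    (hr : Reg (fun v w : Fin p => H v w) r) (hW : r < W)
    (h1 : ∀ i j : ℕ, i < j → j < p → 2 ≤ j → H 0 1 < H i j)
    (hJ : ∀ J l : ℕ, 2 ≤ J → J + 3 ≤ p → J < l → l < p →
      ∑ i ∈ range J, H i J < ∑ i ∈ range J, H i l)
    (τ : Equiv.Perm (Fin p)) :
    Wd W (fun v w : Fin p => H (τ v) (τ w)) ≤ Wd W (fun v w : Fin p => H v w) := by
  have e1 := Wd_reg hr W τ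
  have e2 := Wd_reg hr W 1
  simp only [Equiv.Perm.coe_one, id_eq] at e2
  rw [g1_fin] at e2
  obtain ⟨T, hT⟩ : ∃ T : ℕ → ℕ, ∀ v : Fin p, T (v : ℕ) = ((τ v : Fin p) : ℕ) :=
    ⟨fun n => if h : n < p then ((τ ⟨n, h⟩ : Fin p) : ℕ) else 0, fun v => by simp⟩
  have e3 : ∑ v : Fin p, (∑ w : Fin p, if w < v then H (τ w) (τ v) else 0) *
      W ^ (p - 1 - (v : ℕ)) =
      ∑ v ∈ range p, (∑ i ∈ range v, H (T i) (T v)) * W ^ (p - 1 - v) := by
    rw [← g1_fin p W (fun i v => H (T i) (T v))]
    refine Finset.sum_congr rfl fun v _ => ?_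
    congr 1
    refine Finset.sum_congr rfl fun w _ => ?_
    rw [hT w, hT v]
  rw [e3] at e1
  have key := g2_main p r W H T hp
    (by
      intro a ha b hb hab
      have ha' : a < p := ha
      have hb' : b < p := hb
      have q1 := hT ⟨a, ha'⟩
      have q2 := hT ⟨b, hb'⟩
      simp only at q1 q2
      have q3 : τ ⟨a, ha'⟩ = τ ⟨b, hb'⟩ := Fin.ext (by rw [← q1, ← q2, hab])
      have q4 := τ.injective q3
      exact congrArg Fin.val q4)
    (by
      intro i hi
      rw [hT ⟨i, hi⟩]
      exact (τ ⟨i, hi⟩).2)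
    (fun i hi j hj => hr.symm ⟨i, hi⟩ ⟨j, hj⟩)
    (fun i hi => hr.diag ⟨i, hi⟩)
    (fun i hi => by
      rw [← hr.row ⟨i, hi⟩]
      exact (Fin.sum_univ_eq_sum_range (fun w => H i w) p).symm)
    (fun v hv => (g1_digit p r H hr v hv).trans_lt hW) h1 hJ
  omega

end Helper87.TL
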