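import Mathlib
import Pool.Agent.Helper87.TL.Defs

/-!
# TL-L1: symmetric polynomials of degree at most `p μ` in each variable come from forms of degree `p μ`

`F = KK μ φ` for some `φ` (`KK_surj`, TR/St/T24.lean), and `KK μ φ` is in the span of the
`eps p (∏ j, ww p μ (β j))` (`KK_eps`, TR/St/T25b.lean); `∏ j : Fin p, ww p μ (β j)` is homogeneous of degree `p μ`
(`ww_homogeneous`), so a linear combination of them is a preimage.
-/

set_option autoImplicit false

open MvPolynomial Finset

namespace Helper87.TL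

open Helper87.TR

theorem eps_surj (p μ : ℕ) (hp : 1 ≤ p) (hμ : 1 ≤ μ) (F : Lam p ℚ) (h : Bx (p * μ) F) :
    ∃ G : MvPolynomial (Fin (p + 1)) ℚ, G.IsHomogeneous (p * μ) ∧ eps p G = F := by
  obtain ⟨φ, hφ⟩ := KK_surj hp hμ F h
  have h1 := KK_eps p μ φ
  rw [hφ] at h1
  have h2 : (Submodule.span ℚ (Set.range fun β : Fin p → ℕ => ∏ j, ww p μ (β j))).map
      (eps p).toLinearMap = Submodule.span ℚ (Set.range fun β : Fin p → ℕ =>
        eps p (∏ j, ww p μ (β j))) := by
    rw [Submodule.map_span, ← Set.range_comp]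
    rfl
  rw [← h2] at h1
  obtain ⟨g, hg, hge⟩ := h1
  refine ⟨g, ?_, hge⟩
  have h3 : Submodule.span ℚ (Set.range fun β : Fin p → ℕ => ∏ j, ww p μ (β j)) ≤
      MvPolynomial.homogeneousSubmodule (Fin (p + 1)) ℚ (p * μ) := by
    rw [Submodule.span_le]
    rintro _ ⟨β, rfl⟩
    rw [SetLike.mem_coe, MvPolynomial.mem_homogeneousSubmodule]
    have h4 := MvPolynomial.IsHomogeneous.prod (univ : Finset (Fin p))
      (fun j => ww p μ (β j)) (fun _ => μ) (fun j _ => ww_homogeneous p μ (β j))
    rw [sum_const, card_univ, Fintype.card_fin, smul_eq_mul] at h4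
    exact h4
  exact h3 hg

end Helper87.TL
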