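import Mathlib
import Pool.Agent.Helper87.TL.Defs

/-!
# TL-L2: the lowering operator in the roots

Both sides are derivations along the algebra homomorphism `eps p`; check on `X_i`: `eps p (X i) = (-1)^i e_i`
(`t25b_eps_X`, `t25a_coe_eps`), `∑_j ∂_j e_i = (p - i + 1) e_(i-1)`, `t27b_S p X_i = (p - i + 1) X_(i-1)`, `t27b_S p X_0 = 0`.
(Proof for all `f` by `MvPolynomial.induction_on`: constants, sums, products with a variable.)  For `∑_j ∂_j e_i` one can use the
definition of `esymm` as a sum over subsets, or the identity `∏ (1 - X_j T) = ∑ (-1)^k e_k T^k` (`t25b_vieta`), or any lemma on `pderiv` and `esymm` in Mathlib.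
-/

set_option autoImplicit false

open MvPolynomial Finset

namespace Helper87.TL

open Helper87.TR

lemma l2_pderiv_prod {p : ℕ} (j : Fin p) (t : Finset (Fin p)) :
    pderiv j (∏ i ∈ t, (X i : MvPolynomial (Fin p) ℚ)) =
      if j ∈ t then ∏ i ∈ t.erase j, X i else 0 := by
  classical
  induction t using Finset.induction_on with
  | empty => simp
  | insert a t ha ih =>
    rw [Finset.prod_insert ha, Derivation.leibniz, smul_eq_mul, smul_eq_mul, ih]
    by_cases hj : j = a
    · subst hj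
      rw [pderiv_X_self, if_neg ha, if_pos (Finset.mem_insert_self _ _), Finset.erase_insert ha]
      ring
    · rw [pderiv_X_of_ne (fun h => hj h.symm), mul_zero, add_zero]
      by_cases h : j ∈ t
      · rw [if_pos h, if_pos (Finset.mem_insert_of_mem h), Finset.erase_insert_of_ne (fun h => hj h.symm),
          Finset.prod_insert (fun h' => ha (Finset.mem_of_mem_erase h'))]
      · rw [if_neg h, mul_zero, if_neg]
        rw [Finset.mem_insert]
        push Not
        exact ⟨hj, h⟩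

lemma l2_esymm {p : ℕ} (k : ℕ) (hk : k + 1 ≤ p) :
    ∑ j : Fin p, pderiv j (esymm (Fin p) ℚ (k + 1)) =
      ((p : ℚ) - k) • esymm (Fin p) ℚ k := by
  classical
  simp_rw [esymm, map_sum, l2_pderiv_prod]
  rw [Finset.sum_comm]
  have h1 : ∀ t : Finset (Fin p), ∑ j : Fin p, (if j ∈ t then ∏ i ∈ t.erase j,
      (X i : MvPolynomial (Fin p) ℚ) else 0) = ∑ j ∈ t, ∏ i ∈ t.erase j, X i := by
    intro t
    rw [← Finset.sum_filter]
    congr 1
    ext j
    simp
  simp_rw [h1]
  rw [Finset.sum_sigma']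
  have h2 : ((p : ℚ) - k) • ∑ t ∈ powersetCard k univ, ∏ i ∈ t, (X i : MvPolynomial (Fin p) ℚ) =
      ∑ t ∈ powersetCard k (univ : Finset (Fin p)), ∑ j ∈ tᶜ, ∏ i ∈ t, (X i : MvPolynomial (Fin p) ℚ) := by
    rw [Finset.smul_sum]
    refine Finset.sum_congr rfl fun t ht => ?_
    rw [Finset.sum_const, Finset.card_compl, Fintype.card_fin, (mem_powersetCard.1 ht).2]
    rw [← Nat.cast_smul_eq_nsmul ℚ, Nat.cast_sub (by omega)]
  rw [h2, Finset.sum_sigma']
  refine Finset.sum_bij' (fun x _ => (⟨x.1.erase x.2, x.2⟩ : (_ : Finset (Fin p)) × Fin p))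
    (fun x _ => (⟨insert x.2 x.1, x.2⟩ : (_ : Finset (Fin p)) × Fin p)) ?_ ?_ ?_ ?_ ?_
  · rintro ⟨t, j⟩ h
    simp only [mem_sigma, mem_powersetCard, subset_univ, true_and, mem_compl] at h ⊢
    refine ⟨?_, by simp⟩
    rw [Finset.card_erase_of_mem h.2, h.1]
    rfl
  · rintro ⟨t, j⟩ h
    simp only [mem_sigma, mem_powersetCard, subset_univ, true_and, mem_compl] at h ⊢
    refine ⟨?_, by simp⟩
    rw [Finset.card_insert_of_notMem h.2, h.1]
  · rintro ⟨t, j⟩ h
    simp only [mem_sigma, mem_powersetCard, subset_univ, true_and] at h ⊢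
    rw [Finset.insert_erase h.2]
  · rintro ⟨t, j⟩ h
    simp only [mem_sigma, mem_powersetCard, subset_univ, true_and, mem_compl] at h ⊢
    rw [Finset.erase_insert h.2]
  · rintro ⟨t, j⟩ h
    rfl

lemma l2_X (p : ℕ) (i : Fin (p + 1)) :
    ((eps p (t27b_S p (X i)) : Lam p ℚ) : MvPolynomial (Fin p) ℚ) =
      -∑ j, pderiv j ((eps p (X i) : Lam p ℚ) : MvPolynomial (Fin p) ℚ) := by
  rw [t27b_S, mkDerivation_X]
  split_ifs with h
  · obtain ⟨k, hk⟩ : ∃ k, (i : ℕ) = k + 1 := ⟨(i : ℕ) - 1, by omega⟩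
    have hkp : k + 1 ≤ p := by have := i.2; omega
    rw [map_smul, SetLike.val_smul, t25b_eps_X, t25b_eps_X]
    have e1 : ∀ j : Fin p, pderiv j ((-1 : MvPolynomial (Fin p) ℚ) ^ (i : ℕ) * esymm (Fin p) ℚ (i : ℕ)) =
        (-1) ^ (i : ℕ) * pderiv j (esymm (Fin p) ℚ (i : ℕ)) := by
      intro j
      have : ((-1 : MvPolynomial (Fin p) ℚ) ^ (i : ℕ)) = C ((-1) ^ (i : ℕ)) := by simp
      rw [this, pderiv_C_mul, C_mul']
    simp_rw [e1]
    rw [← Finset.mul_sum]
    have e2 : ((⟨(i : ℕ) - 1, by have := i.2; omega⟩ : Fin (p + 1)) : ℕ) = k := by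
      simp [hk]
    simp only [hk, Nat.add_sub_cancel]
    rw [l2_esymm k hkp, smul_eq_C_mul, smul_eq_C_mul, pow_succ]
    push_cast
    have e3 : (p : ℚ) - (k + 1) + 1 = p - k := by ring
    rw [e3]
    ring
  · have hi : (i : ℕ) = 0 := by omega
    rw [map_zero, t25b_eps_X, hi]
    simp

theorem eps_S (p : ℕ) (f : MvPolynomial (Fin (p + 1)) ℚ) :
    ((eps p (t27b_S p f) : Lam p ℚ) : MvPolynomial (Fin p) ℚ) =
      -∑ j, pderiv j ((eps p f : Lam p ℚ) : MvPolynomial (Fin p) ℚ) := by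
  induction f using MvPolynomial.induction_on with
  | C a =>
    rw [show (C a : MvPolynomial (Fin (p + 1)) ℚ) = algebraMap ℚ _ a from rfl,
      Derivation.map_algebraMap, map_zero, AlgHom.commutes]
    have : ((algebraMap ℚ (Lam p ℚ) a : Lam p ℚ) : MvPolynomial (Fin p) ℚ) = C a := rfl
    rw [this]
    simp
  | add f g hf hg =>
    rw [map_add, map_add, map_add]
    simp only [Subalgebra.coe_add, map_add]
    rw [hf, hg, Finset.sum_add_distrib]
    ring
  | mul_X f i hf =>
    rw [Derivation.leibniz, smul_eq_mul, smul_eq_mul, map_add, map_mul, map_mul, map_mul]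
    simp only [Subalgebra.coe_add, Subalgebra.coe_mul, Derivation.leibniz, smul_eq_mul]
    rw [hf, l2_X, Finset.sum_add_distrib, ← Finset.mul_sum, ← Finset.mul_sum]
    ring

end Helper87.TL
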