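import Mathlib
import Pool.Agent.Helper87.TL.St.L1
import Pool.Agent.Helper87.TL.St.L2

/-!
# TL-L3: symmetric polynomials in the roots as semi-invariants

Take `G` from `eps_surj`, homogeneous of degree `p μ`; let `G'` be its part of weight `k` (`∑ i, i a_i = k`), which is in
`Vw p (p μ) k`; `eps p` of a polynomial of weight `j` is homogeneous of degree `j` (`e_i` is homogeneous of degree `i`), so
`eps p G'` is the component of degree `k` of `F`, i.e. `F` (the parts of other weights have image of another degree, so the sum of their images is `0`).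
Then `t27b_S p G'` is homogeneous of degree `p μ` and `eps p (t27b_S p G') = 0` by `eps_S`, hence `t27b_S p G' = 0` by `eps_inj`
(TR/St/T25a.lean).  Useful: `t29a_weight`, `t29a_whc`, `t29a_homogeneous` (TR/St/T29a.lean), `weightedHomogeneousComponent`.
-/

set_option autoImplicit false

open MvPolynomial Finset

namespace Helper87.TL

open Helper87.TR

lemma l3_esymm (p j : ℕ) : (esymm (Fin p) ℚ j).IsHomogeneous j := by
  classical
  rw [esymm]
  refine IsHomogeneous.sum _ _ _ fun t ht => ?_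
  have h := IsHomogeneous.prod t (fun i => (X i : MvPolynomial (Fin p) ℚ)) (fun _ => 1)
    (fun i _ => isHomogeneous_X _ _)
  have h1 : ∑ _i ∈ t, 1 = j := by
    rw [← (Finset.mem_powersetCard.1 ht).2, Finset.card_eq_sum_ones]
  rw [h1] at h
  exact h

lemma l3_mono (p : ℕ) (e : Fin (p + 1) →₀ ℕ) (c : ℚ) :
    ((eps p (monomial e c) : Lam p ℚ) : MvPolynomial (Fin p) ℚ).IsHomogeneous
      (∑ i : Fin (p + 1), (i : ℕ) * e i) := by
  rw [t25a_coe_eps, aeval_monomial, algebraMap_eq, Finsupp.prod_fintype _ _ (fun i => pow_zero _)]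
  have h := IsHomogeneous.prod (Finset.univ : Finset (Fin (p + 1)))
    (fun i => (((-1 : ℚ) ^ (i : ℕ)) • esymm (Fin p) ℚ (i : ℕ)) ^ e i) (fun i => (i : ℕ) * e i)
    (fun i _ => by
      refine IsHomogeneous.pow ?_ _
      rw [smul_eq_C_mul]
      have h1 := (isHomogeneous_C (Fin p) ((-1 : ℚ) ^ (i : ℕ))).mul (l3_esymm p i)
      rwa [zero_add] at h1)
  have h2 := (isHomogeneous_C (Fin p) c).mul h
  rwa [zero_add] at h2

lemma l3_comp (p k : ℕ) (G : MvPolynomial (Fin (p + 1)) ℚ) :
    ((eps p (weightedHomogeneousComponent (t29a_w p) k G) : Lam p ℚ) : MvPolynomial (Fin p) ℚ) =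
      homogeneousComponent k ((eps p G : Lam p ℚ) : MvPolynomial (Fin p) ℚ) := by
  classical
  rw [t25a_coe_eps, t25a_coe_eps, G.as_sum]
  simp only [map_sum]
  refine Finset.sum_congr rfl fun e _ => ?_
  have h1 := l3_mono p e (coeff e G)
  rw [t25a_coe_eps] at h1
  rw [homogeneousComponent_of_mem ((mem_homogeneousSubmodule _ _).2 h1)]
  have h2 : (monomial e (coeff e G)).IsWeightedHomogeneous (t29a_w p)
      (∑ i : Fin (p + 1), (i : ℕ) * e i) :=
    isWeightedHomogeneous_monomial _ _ _ (t29a_weight p e)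
  rw [weightedHomogeneousComponent_of_mem ((mem_weightedHomogeneousSubmodule _ _ _ _).2 h2)]
  split_ifs with h
  · rfl
  · rw [map_zero]

lemma l3_mem (p m k : ℕ) (G : MvPolynomial (Fin (p + 1)) ℚ) (hG : G.IsHomogeneous m) :
    weightedHomogeneousComponent (t29a_w p) k G ∈ Vw p m k := by
  classical
  intro a ha
  rw [coeff_weightedHomogeneousComponent, t29a_weight] at ha
  split_ifs at ha with h
  · refine ⟨?_, h⟩
    have h2 := hG ha
    rw [← h2, Finsupp.weight_apply, Finsupp.sum_fintype _ _ (fun i => by simp)]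
    simp
  · exact absurd rfl ha

lemma l3_S_hom (p m k : ℕ) (G : MvPolynomial (Fin (p + 1)) ℚ) (hG : G ∈ Vw p m k) :
    (t27b_S p G).IsHomogeneous m := by
  cases k with
  | zero =>
    rw [t27b_S_zero p m hG]
    exact isHomogeneous_zero _ _ _
  | succ k => exact t29a_homogeneous (t27b_S_mem p m k hG)

theorem lift (p μ k : ℕ) (hp : 1 ≤ p) (hμ : 1 ≤ μ) (F : MvPolynomial (Fin p) ℚ)
    (h0 : F.IsSymmetric) (h1 : ∀ i, degreeOf i F ≤ p * μ) (h2 : F.IsHomogeneous k)
    (h3 : ∑ i, pderiv i F = 0) :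
    ∃ G ∈ hw p (p * μ) k, ((eps p G : Lam p ℚ) : MvPolynomial (Fin p) ℚ) = F := by
  obtain ⟨G, hG1, hG2⟩ := eps_surj p μ hp hμ ⟨F, h0⟩ h1
  have hF : ((eps p (weightedHomogeneousComponent (t29a_w p) k G) : Lam p ℚ) :
      MvPolynomial (Fin p) ℚ) = F := by
    rw [l3_comp, hG2]
    change homogeneousComponent k F = F
    rw [homogeneousComponent_of_mem ((mem_homogeneousSubmodule _ _).2 h2), if_pos rfl]
  have hV := l3_mem p (p * μ) k G hG1
  refine ⟨weightedHomogeneousComponent (t29a_w p) k G, ⟨hV, ?_⟩, hF⟩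
  refine eps_inj (l3_S_hom p _ _ _ hV) (isHomogeneous_zero _ _ _) ?_
  rw [map_zero]
  apply Subtype.ext
  rw [eps_S, hF, h3, neg_zero]
  rfl

end Helper87.TL
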