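import Mathlib
import Pool.Agent.Helper87.TL.St.E1
import Pool.Agent.Helper87.TL.St.E2
import Pool.Agent.Helper87.TL.St.E3
import Pool.Agent.Helper87.TL.St.G1
import Pool.Agent.Helper87.TL.St.G2
import Pool.Agent.Helper87.TL.St.F1
import Pool.Agent.Helper87.TL.St.F2
import Pool.Agent.Helper87.TL.St.F3
import Pool.Agent.Helper87.TL.St.L3

/-!
# TL-M: many linearly independent invariants

Let `r = K p^6 (p - 1)`, `W = r + 2`.  For `t : Fin (p - 3) → Fin K` put `s_t a = 1 + t (a - 2)`, plus `p^3 K` if `a = 2`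
(`2 ≤ a ≤ p - 2`; any value elsewhere): `Adm p K (s_t)`.  `H_t = hn p K s_t`, `Reg H_t r` (`hn_reg`), `F_t = gF H_t`.
By `lift` with `μ = 4 K p^5 (p - 1)` (`p μ = 4 r`) and `k = 2 p r`: `G_t ∈ hw p (4 r) (2 p r)` with `eps p G_t = F_t`.
The map `ev p W ∘ (coercion) ∘ eps p` is linear and sends `G_t` to `ev p W (F_t)`, which is nonzero of degree
`4 Wd W H_t` (`ev_gF`, `greedy`, `hn_one`, `hn_J`), and these degrees are different for different `t` (`Wd_inj`, `hn_inj`).
So the `G_t` are linearly independent (`indep_natDegree`, `LinearIndependent.of_comp`), and there are `K ^ (p - 3)` of them.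
-/

set_option autoImplicit false

open MvPolynomial Finset

namespace Helper87.TL

open Helper87.TR

/-- the parameters -/
def m_s (p K : ℕ) (t : Fin (p - 3) → Fin K) (a : ℕ) : ℕ :=
  (if a = 2 then p ^ 3 * K else 0) + 1 + (if h : a - 2 < p - 3 then (t ⟨a - 2, h⟩ : ℕ) else 0)

lemma m_adm (p K : ℕ) (hK : 1 ≤ K) (t : Fin (p - 3) → Fin K) : Adm p K (m_s p K t) := by
  have h : ∀ a, (if h : a - 2 < p - 3 then (t ⟨a - 2, h⟩ : ℕ) else 0) + 1 ≤ K := by
    intro a
    split_ifs with h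
    · exact (t ⟨a - 2, h⟩).2
    · omega
  constructor
  · have h1 := h 2
    unfold m_s
    rw [if_pos rfl]
    omega
  · intro a ha _
    have h1 := h a
    unfold m_s
    rw [if_neg (by omega)]
    omega

lemma m_inj (p K : ℕ) (t t' : Fin (p - 3) → Fin K)
    (h : ∀ a, 2 ≤ a → a + 2 ≤ p → m_s p K t a = m_s p K t' a) : t = t' := by
  funext i
  have h1 := h (i + 2) (by omega) (by omega)
  unfold m_s at h1
  have h2 : (i : ℕ) + 2 - 2 < p - 3 := by omega
  rw [dif_pos h2, dif_pos h2] at h1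
  have h3 : (⟨(i : ℕ) + 2 - 2, h2⟩ : Fin (p - 3)) = i := by
    apply Fin.ext
    simp
  rw [h3] at h1
  apply Fin.ext
  omega

theorem mu_graph (p K : ℕ) (hp : 6 ≤ p) (hK : 1 ≤ K) :
    K ^ (p - 3) ≤ mu p (4 * (K * p ^ 6 * (p - 1))) (2 * (p * (K * p ^ 6 * (p - 1)))) := by
  have hp1 : 1 ≤ p - 1 := by omega
  have hμ : 1 ≤ 4 * (K * p ^ 5 * (p - 1)) := by
    have h1 : 0 < p := by omega
    have : 0 < K * p ^ 5 * (p - 1) := by positivity
    omega
  set r := K * p ^ 6 * (p - 1) with hr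
  have hpμ : p * (4 * (K * p ^ 5 * (p - 1))) = 4 * r := by
    rw [hr]
    ring
  rw [← hpμ]
  set h : (Fin (p - 3) → Fin K) → Fin p → Fin p → ℕ :=
    fun t v w => hn p K (m_s p K t) v w with hh
  have hreg : ∀ t, Reg (h t) r := fun t => hn_reg p K _ hp hK (m_adm p K hK t)
  have hmax : ∀ t (τ : Equiv.Perm (Fin p)),
      Wd (r + 2) (fun v w => h t (τ v) (τ w)) ≤ Wd (r + 2) (h t) := by
    intro t τ
    exact greedy p r (r + 2) (hn p K (m_s p K t)) (by omega) (hreg t) (by omega)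
      (hn_one p K _ hp hK (m_adm p K hK t)) (hn_J p K _ hp hK (m_adm p K hK t)) τ
  have hev : ∀ t, ev p (r + 2) (gF (h t)) ≠ 0 ∧
      (ev p (r + 2) (gF (h t))).natDegree = 4 * Wd (r + 2) (h t) := fun t =>
    ev_gF (by omega) (hreg t) (hmax t)
  have hlift : ∀ t, ∃ G ∈ hw p (p * (4 * (K * p ^ 5 * (p - 1)))) (2 * (p * r)),
      ((eps p G : Lam p ℚ) : MvPolynomial (Fin p) ℚ) = gF (h t) := by
    intro t
    refine lift p _ _ (by omega) hμ (gF (h t)) (gF_symm _) ?_ (gF_hom (hreg t)) (gF_der _)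
    intro i
    rw [hpμ]
    exact gF_deg (hreg t) i
  choose G hG1 hG2 using hlift
  let φ : hw p (p * (4 * (K * p ^ 5 * (p - 1)))) (2 * (p * r)) →ₗ[ℚ] Polynomial ℚ :=
    (ev p (r + 2)).toLinearMap ∘ₗ (symmetricSubalgebra (Fin p) ℚ).val.toLinearMap ∘ₗ
      (eps p).toLinearMap ∘ₗ (hw p (p * (4 * (K * p ^ 5 * (p - 1)))) (2 * (p * r))).subtype
  have hind : LinearIndependent ℚ
      (fun t => (⟨G t, hG1 t⟩ : hw p (p * (4 * (K * p ^ 5 * (p - 1)))) (2 * (p * r)))) := by
    refine LinearIndependent.of_comp φ ?_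
    have h1 : (φ ∘ fun t => (⟨G t, hG1 t⟩ :
        hw p (p * (4 * (K * p ^ 5 * (p - 1)))) (2 * (p * r)))) =
        fun t => ev p (r + 2) (gF (h t)) := by
      funext t
      rw [← hG2 t]
      rfl
    rw [h1]
    refine indep_natDegree _ (fun t => (hev t).1) ?_
    intro t t' htt
    have h2 : (ev p (r + 2) (gF (h t))).natDegree = (ev p (r + 2) (gF (h t'))).natDegree := htt
    rw [(hev t).2, (hev t').2] at h2
    have h3 : Wd (r + 2) (h t) = Wd (r + 2) (h t') := by omega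
    have h4 := Wd_inj p r (r + 2) (hn p K (m_s p K t)) (hn p K (m_s p K t')) (hreg t) (hreg t')
      (by omega) h3
    exact m_inj p K t t' (hn_inj p K _ _ hp hK (m_adm p K hK t) (m_adm p K hK t') h4)
  have hcard := hind.fintype_card_le_finrank
  rw [Fintype.card_fun, Fintype.card_fin, Fintype.card_fin] at hcard
  exact hcard

end Helper87.TL
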