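import Mathlib
import Pool.Agent.Helper87.TL.St.A2
import Pool.Agent.Helper87.TL.St.B
import Pool.Agent.Helper87.TL.St.C2
import Pool.Agent.Helper87.TL.St.D1
import Pool.Agent.Helper87.TL.St.D2
import Pool.Agent.Helper87.TL.St.M

/-!
# TL-N: comparison for fixed `m`, `p` and large `q`

Let `q0 = 4 p^6 (p - 1)`, `B = (p^2 q0)^(m - 2)`, `q1 = p q0 B + p (88 + q0)`.  Let `q ≥ q1`, `m n = p q`, `2 k ≤ m n`; `q ≤ n`.
If `k ≤ q` use `mu_small`.  Let `k > q`.  Put `q2 = ⌈2 k / p⌉ ≤ q`, `δ = p q2 - 2 k < p`, `K = (q2 - 88) / q0`, `qh = q2 - K q0`, so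
`88 ≤ qh < 88 + q0` and `K q0 > q2 - 88 - q0 ≥ 2 q / p - 88 - q0 ≥ q / p`, so `p q0 K ≥ q` and `K ≥ B ≥ 1` (`q ≥ p q0 B`).
With `2 kh + δ = p qh`: `k = 2 p (p^6 (p - 1)) K + kh` and
`mu p q k ≥ mu p q2 k` (`mu_X0`) `≥ mu p (K q0) (2 p^7 (p - 1) K)` (`mu_add` and `mu_exists p qh δ kh`) `≥ K ^ (p - 3)` (`mu_graph`).
`mu m n k ≤ (k + 1)^(m - 2) ≤ (p q)^(m - 2) ≤ (p^2 q0 K)^(m - 2) = B K^(m - 2) ≤ K^(m - 1) ≤ K^(p - 3)` (`mu_upper`).
-/

set_option autoImplicit false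

open MvPolynomial Finset

namespace Helper87.TL

open Helper87.TR

theorem mu_large (m p : ℕ) (hm : 2 ≤ m) (hp : m + 2 ≤ p) (hp6 : 6 ≤ p) :
    ∃ q1, ∀ q ≥ q1, ∀ n k, m * n = p * q → 2 * k ≤ m * n → mu m n k ≤ mu p q k := by
  obtain ⟨R, hR⟩ : ∃ R, R = p ^ 6 * (p - 1) := ⟨_, rfl⟩
  have hRpos : 1 ≤ R := by
    rw [hR]
    exact Nat.one_le_iff_ne_zero.mpr
      (Nat.mul_ne_zero (pow_ne_zero _ (by omega)) (by omega))
  obtain ⟨B, hB⟩ : ∃ B, B = (p ^ 2 * (4 * R)) ^ (m - 2) := ⟨_, rfl⟩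
  refine ⟨p * (4 * R) * B + p * (88 + 4 * R), fun q hq n k hmn hk => ?_⟩
  have hp1 : 1 ≤ p := by omega
  have hqn : q ≤ n := by
    by_contra hcon
    have h1 : m * n < m * q := Nat.mul_lt_mul_of_pos_left (by omega) (by omega)
    have h2 : m * q ≤ p * q := Nat.mul_le_mul_right _ (by omega)
    omega
  rcases Nat.lt_or_ge q k with hkq | hkq
  swap
  · exact mu_small m n p q k hm (by omega) hqn hkq
  obtain ⟨q2, hq2⟩ : ∃ q2, q2 = (2 * k + (p - 1)) / p := ⟨_, rfl⟩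
  have hdm := Nat.div_add_mod (2 * k + (p - 1)) p
  have hml := Nat.mod_lt (2 * k + (p - 1)) (show 0 < p by omega)
  rw [← hq2] at hdm
  have h2k1 : 2 * k ≤ p * q2 := by omega
  have h2k2 : p * q2 < 2 * k + p := by omega
  have hq2q : q2 ≤ q := by
    by_contra hcon
    have h1 : p * (q + 1) ≤ p * q2 := Nat.mul_le_mul_left _ (by omega)
    rw [Nat.mul_add] at h1
    omega
  have hq2l : 88 + 4 * R < q2 := by
    by_contra hcon
    have h1 : p * q2 ≤ p * (88 + 4 * R) := Nat.mul_le_mul_left _ (by omega)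
    have h2 : 0 ≤ p * (4 * R) * B := Nat.zero_le _
    omega
  obtain ⟨K, hK⟩ : ∃ K, K = (q2 - 88) / (4 * R) := ⟨_, rfl⟩
  have hdK := Nat.div_add_mod (q2 - 88) (4 * R)
  have hmK := Nat.mod_lt (q2 - 88) (show 0 < 4 * R by omega)
  rw [← hK] at hdK
  obtain ⟨e, he⟩ : ∃ e, e = (q2 - 88) % (4 * R) := ⟨_, rfl⟩
  rw [← he] at hdK hmK
  have hq2e : q2 = 4 * R * K + (88 + e) := by omega
  have hpq2 : p * q2 = p * (4 * R) * K + p * (88 + e) := by
    rw [hq2e]; ring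
  have hpe : p * (88 + e) + p ≤ p * (88 + 4 * R) := by
    have := Nat.mul_le_mul_left p (show 88 + e + 1 ≤ 88 + 4 * R by omega)
    rw [Nat.mul_add p (88 + e) 1] at this
    omega
  have hKq : q + p * (4 * R) * B ≤ p * (4 * R) * K := by omega
  have hBK : B ≤ K := by
    have h1 : p * (4 * R) * B ≤ p * (4 * R) * K := by omega
    exact Nat.le_of_mul_le_mul_left h1 (Nat.mul_pos (by omega) (by omega))
  have hB1 : 1 ≤ B := by
    rw [hB]
    exact Nat.one_le_iff_ne_zero.mpr (pow_ne_zero _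
      (Nat.mul_ne_zero (pow_ne_zero _ (by omega)) (by omega)))
  have hK1 : 1 ≤ K := le_trans hB1 hBK
  -- the covariant
  have h88 : p * 88 ≤ p * (88 + e) := Nat.mul_le_mul_left _ (by omega)
  have h2R : p * (4 * R) * K = 2 * (2 * (p * R * K)) := by ring
  have hk' : 2 * (p * R * K) ≤ k := by omega
  have hex : 1 ≤ mu p (88 + e) (k - 2 * (p * R * K)) := by
    refine mu_exists p (88 + e) (p * q2 - 2 * k) (k - 2 * (p * R * K)) hp6 (by omega)
      (by omega) ?_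
    omega
  have hadd := mu_add p (4 * (K * p ^ 6 * (p - 1))) (2 * (p * (K * p ^ 6 * (p - 1))))
    (88 + e) (k - 2 * (p * R * K)) hex
  have hgr := mu_graph p K hp6 hK1
  have e1 : K * p ^ 6 * (p - 1) = K * R := by rw [hR]; ring
  rw [e1] at hadd hgr
  have e2 : 4 * (K * R) + (88 + e) = q2 := by rw [hq2e]; ring
  have e3 : 2 * (p * (K * R)) + (k - 2 * (p * R * K)) = k := by
    have : p * (K * R) = p * R * K := by ring
    rw [this]; omega
  rw [e2, e3] at hadd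
  have hX := mu_X0 p q2 k (q - q2)
  rw [show q2 + (q - q2) = q by omega] at hX
  -- the upper bound
  have hup := mu_upper m n k hm hk
  have hkp : k + 1 ≤ p * q := by omega
  have hqK : q ≤ p * (4 * R) * K := by omega
  have h1 : (k + 1) ^ (m - 2) ≤ (p ^ 2 * (4 * R) * K) ^ (m - 2) := by
    refine Nat.pow_le_pow_left (le_trans hkp ?_) _
    calc p * q ≤ p * (p * (4 * R) * K) := Nat.mul_le_mul_left _ hqK
      _ = p ^ 2 * (4 * R) * K := by ring
  have h2 : (p ^ 2 * (4 * R) * K) ^ (m - 2) ≤ K ^ (m - 1) := by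
    rw [mul_pow, ← hB]
    calc B * K ^ (m - 2) ≤ K * K ^ (m - 2) := Nat.mul_le_mul_right _ hBK
      _ = K ^ (m - 2 + 1) := by rw [pow_succ]; ring
      _ = K ^ (m - 1) := by congr 1; omega
  have h3 : K ^ (m - 1) ≤ K ^ (p - 3) := Nat.pow_le_pow_right hK1 (by omega)
  omega

end Helper87.TL
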